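import Pool.Agent.V5helper35.WF.Semi

/-!
# The translations of thick strips form free semigroups
-/

set_option autoImplicit false

namespace Pool.Agent.V5helper35.WF

open Function Set Pool.Agent.N47.SQ

variable {V : Type*} {G : Type*} [Group G] [MulAction G V] {Γ : SimpleGraph V}

/-- a flat strip which looks like `f` on all blocks of length `w` -/
structure IsStrip (Γ : SimpleGraph V) (G : Type*) [Group G] [MulAction G V] (f : ℤ × ℤ → V)
    (w b : ℕ) (S : ℤ × Fin (b + 1) → V) : Prop where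
  iso : ∀ z z', (Γ.dist (S z) (S z') : ℤ) = |z.1 - z'.1| + |((z.2 : ℕ) : ℤ) - (z'.2 : ℕ)|
  loc : ∀ i : ℤ, ∃ (g : G) (c : ℤ × ℤ), ∀ z : ℤ × Fin (b + 1),
    i ≤ z.1 → z.1 ≤ i + w → S z = g • f (c.1 + z.1, c.2 + (z.2 : ℕ))

section axis

variable {h : ℤ × ℤ → V} {W B : ℕ} {p : Bool → ℤ × ℤ} {l : Bool → ℕ} {a θ : Bool → G}

/-- the two-sided strip -/
def TS (p : Bool → ℤ × ℤ) (l : Bool → ℕ) (a θ : Bool → G) (h : ℤ × ℤ → V) (ε : ℕ → Bool) (k : ℕ)
    (z : ℤ × ℤ) : V :=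
  (pr θ ε k ^ z.1.natAbs)⁻¹ • HS p l a θ h ε (z.1 + z.1.natAbs * (T l ε k : ℤ), z.2)

theorem le_T (hl : ∀ b, 0 < l b) (ε : ℕ → Bool) (k : ℕ) : k ≤ T l ε k := by
  unfold T
  calc k = ∑ _i ∈ Finset.range k, 1 := by simp
    _ ≤ _ := Finset.sum_le_sum fun i _ => hl _

theorem nonneg_aux {n : ℕ} (hn : 0 < n) (x : ℤ) (m : ℕ) (hm : x.natAbs ≤ m) : 0 ≤ x + m * (n : ℤ) := by
  have h1 : (m : ℤ) ≤ m * (n : ℤ) := by
    have : (m : ℤ) * 1 ≤ m * (n : ℤ) := mul_le_mul_of_nonneg_left (by omega) (by omega)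
    omega
  omega

theorem TS_eq (hl : ∀ b, 0 < l b) {ε : ℕ → Bool} {k : ℕ} (hk : 0 < k) (hper : sh ε k = ε)
    (x y : ℤ) (m : ℕ) (hm : x.natAbs ≤ m) :
    TS p l a θ h ε k (x, y) = (pr θ ε k ^ m)⁻¹ • HS p l a θ h ε (x + m * (T l ε k : ℤ), y) := by
  have hn : 0 < T l ε k := lt_of_lt_of_le hk (le_T hl ε k)
  induction m, hm using Nat.le_induction with
  | base => rfl
  | succ m hm ih =>
    rw [ih]
    obtain ⟨t, ht⟩ := Int.eq_ofNat_of_zero_le (nonneg_aux hn x m hm)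
    have h1 := HS_shift p l a θ h hl ε k t y
    rw [hper] at h1
    have e : x + ((m + 1 : ℕ) : ℤ) * (T l ε k : ℤ) = (T l ε k : ℤ) + t := by
      push_cast
      linarith
    rw [e, h1, ht, pow_succ', mul_inv_rev, mul_smul, inv_smul_smul]

theorem TS_inv (hl : ∀ b, 0 < l b) {ε : ℕ → Bool} {k : ℕ} (hk : 0 < k) (hper : sh ε k = ε)
    (x y : ℤ) : pr θ ε k • TS p l a θ h ε k (x, y) = TS p l a θ h ε k (x + T l ε k, y) := by
  set m := x.natAbs + (x + T l ε k).natAbs with hm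
  rw [TS_eq hl hk hper x y (m + 1) (by omega), TS_eq hl hk hper (x + T l ε k) y m (by omega)]
  have e : x + ((m + 1 : ℕ) : ℤ) * (T l ε k : ℤ) = x + (T l ε k : ℤ) + m * (T l ε k : ℤ) := by
    push_cast
    ring
  rw [e, pow_succ, mul_inv_rev, mul_smul, smul_inv_smul]

theorem TS_iso (hA : Act G Γ) (hf : IsFlat Γ h)
    (hL : Loops G h W B p l (fun b b' => a b * θ b * (a b')⁻¹)) (hW : 2 ≤ W) {ε : ℕ → Bool} {k : ℕ}
    (hk : 0 < k) (hper : sh ε k = ε) (x x' y y' : ℤ) (h1 : 0 ≤ y) (h2 : y ≤ B) (h3 : 0 ≤ y')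
    (h4 : y' ≤ B) :
    (Γ.dist (TS p l a θ h ε k (x, y)) (TS p l a θ h ε k (x', y')) : ℤ) = |x - x'| + |y - y'| := by
  have hl := hL.pos
  have hn : 0 < T l ε k := lt_of_lt_of_le hk (le_T hl ε k)
  set m := x.natAbs + x'.natAbs with hm
  rw [TS_eq hl hk hper x y m (by omega), TS_eq hl hk hper x' y' m (by omega), hA.dist]
  obtain ⟨t, ht⟩ := Int.eq_ofNat_of_zero_le (nonneg_aux hn x m (by omega))
  obtain ⟨t', ht'⟩ := Int.eq_ofNat_of_zero_le (nonneg_aux hn x' m (by omega))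
  rw [ht, ht']
  have := HS_iso (p := p) (l := l) (a := a) (θ := θ) hA hf hL hW ε t t' y y' h1 h2 h3 h4
  rw [this]
  congr 2
  linarith

theorem TS_first (hC : Conn G h W B p l a θ)
    (hL : Loops G h W B p l (fun b b' => a b * θ b * (a b')⁻¹)) (ε : ℕ → Bool) (k : ℕ) (y : ℤ)
    (h1 : 0 ≤ y) (h2 : y ≤ B) : TS p l a θ h ε k (0, y) = h (p false + (0, y)) := by
  have h3 := HS_first hC hL ε 0 (by omega) y h1 h2
  rw [Nat.cast_zero] at h3
  unfold TS
  simp only [Int.natAbs_zero, pow_zero, inv_one, one_smul, Nat.cast_zero, zero_mul, add_zero]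
  rw [h3, add_comm]

theorem TS_loc (hL : Loops G h W B p l (fun b b' => a b * θ b * (a b')⁻¹)) {ε : ℕ → Bool} {k : ℕ}
    (hk : 0 < k) (hper : sh ε k = ε) (i : ℤ) :
    ∃ (g : G) (c : ℤ × ℤ), ∀ x y : ℤ, i ≤ x → x ≤ i + W → 0 ≤ y → y ≤ B →
      TS p l a θ h ε k (x, y) = g • h ((x - i, y) + c) := by
  have hl := hL.pos
  have hn : 0 < T l ε k := lt_of_lt_of_le hk (le_T hl ε k)
  set m := i.natAbs + W with hm
  obtain ⟨t, ht⟩ := Int.eq_ofNat_of_zero_le (nonneg_aux hn i m (by omega))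
  refine ⟨(pr θ ε k ^ m)⁻¹ * ((a (ε 0))⁻¹ * gg l (fun b b' => a b * θ b * (a b')⁻¹) ε t), ps p l ε t,
    fun x y h1 h2 h3 h4 => ?_⟩
  obtain ⟨x0, hx0⟩ := Int.eq_ofNat_of_zero_le (show 0 ≤ x - i by omega)
  rw [TS_eq hl hk hper x y m (by omega)]
  have h5 := window p l _ hL ε x0 (by omega) t y h3 h4
  unfold HS
  rw [show x + (m : ℤ) * (T l ε k : ℤ) = (t : ℤ) + x0 by linarith, h5, hx0, mul_smul, mul_smul]

end axis

theorem main_thm (hA : Act G Γ) (hZ : ¬ ∃ φ : Multiplicative (ℤ × ℤ) →* G, Injective φ)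
    {f : ℤ × ℤ → V} (hf : IsFlat Γ f) (w b : ℕ) :
    ∃ (θ : Bool → G) (l : Bool → ℕ) (Q : Fin (b + 1) → V), (∀ i, 0 < l i) ∧
      (Injective fun ω : List Bool => (ω.map θ).prod) ∧
      ∀ ω : List Bool, ω ≠ [] → ∃ S : ℤ × Fin (b + 1) → V, IsStrip Γ G f w b S ∧
        (∀ y, S (0, y) = Q y) ∧
        ∀ x y, (ω.map θ).prod • S (x, y) = S (x + (((ω.map l).sum : ℕ) : ℤ), y) := by
  classical
  obtain ⟨d, hd⟩ : ∃ d : ℕ, Deg Γ d := by
    obtain ⟨K, hK, hGK⟩ := hA.orb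
    refine ⟨∑ w ∈ hK.toFinset, (Γ.neighborSet w).ncard, fun v => ⟨hA.fin v, ?_⟩⟩
    obtain ⟨g, hg⟩ := hGK v
    have h1 : (Γ.neighborSet v).ncard ≤ (Γ.neighborSet (g • v)).ncard := by
      refine Set.ncard_le_ncard_of_injOn (fun w => g • w) (fun w hw => hA.aut g v w hw) ?_
        (hA.fin (g • v))
      intro w _ w' _ h
      exact MulAction.injective g h
    exact h1.trans (Finset.single_le_sum (f := fun w => (Γ.neighborSet w).ncard)
      (fun _ _ => Nat.zero_le _) (hK.mem_toFinset.2 hg))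
  obtain ⟨L, hLf, hL⟩ := (Orb.sys hA hf).exists_min hA ⟨f, Orb.self f⟩
  obtain ⟨s, hs, hU⟩ := us' hA hL
  obtain ⟨h, hh⟩ := hL.ne
  have hfl := hL.sys.flat h hh
  set W := max w (s + 2) with hW
  set B := max b (s + 1) with hB
  obtain ⟨p, l, u, hLo⟩ := exists_loops hA hd hZ hs hU hh hfl (W := W) (B := B) (by omega)
    (by omega)
  obtain ⟨a, θ, hC⟩ := exists_conn hLo
  have hL' := hC.loops hLo
  refine ⟨θ, l, fun y => h (p false + (0, ((y : ℕ) : ℤ))), hLo.pos,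
    free hA hfl hC hL' (by omega) (by omega), fun ω hω => ?_⟩
  set k := ω.length with hk
  have hk0 : 0 < k := List.length_pos_iff.2 hω
  set ε : ℕ → Bool := fun i => ω.getD (i % k) false with hε
  have hεi : ∀ i, (hi : i < ω.length) → ε i = ω[i] := by
    intro i hi
    have : i % k = i := Nat.mod_eq_of_lt hi
    simp [hε, this, List.getD_eq_getElem?_getD, hi]
  have hper : sh ε k = ε := by
    funext i
    simp only [sh, hε]
    rw [Nat.add_mod_left]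
  have hpr : pr θ ε k = (ω.map θ).prod := pr_list ω hεi
  have hT : T l ε k = (ω.map l).sum := T_list ω hεi
  refine ⟨fun z => TS p l a θ h ε k (z.1, ((z.2 : ℕ) : ℤ)), ⟨fun z z' => ?_, fun i => ?_⟩, fun y => ?_,
    fun x y => ?_⟩
  · exact TS_iso hA hfl hL' (by omega) hk0 hper _ _ _ _ (by omega) (by omega) (by omega) (by omega)
  · obtain ⟨g, c, hg⟩ := TS_loc hL' hk0 hper i
    obtain ⟨g', c', hg'⟩ := Orb.pos (hLf hh) W B c
    refine ⟨g * g', c' - (i, 0), fun z h1 h2 => ?_⟩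
    rw [hg z.1 _ h1 (by omega) (by omega) (by omega), hg' _ ⟨by simp only; omega, by simp only; omega,
      by simp, by simp only; omega⟩, mul_smul]
    congr 3
    refine Prod.ext ?_ ?_
    · simp only [Prod.fst_add, Prod.fst_sub]; omega
    · simp only [Prod.snd_add, Prod.snd_sub]; ring
  · exact TS_first hC hL' ε k _ (by omega) (by omega)
  · simp only
    rw [← hpr, ← hT]
    exact TS_inv hLo.pos hk0 hper x _

end Pool.Agent.V5helper35.WF
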