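import Pool.Agent.V5helper35.WF.Main

/-!
# Strips composed of blocks of a flat plane
-/

set_option autoImplicit false

namespace Pool.Agent.V5helper35.WF

open Function Set Pool.Agent.N47.SQ

variable {V : Type*} {G : Type*} [Group G] [MulAction G V] {Γ : SimpleGraph V}

/-- two loops at one pattern -/
structure Loops (G : Type*) {V : Type*} [Group G] [MulAction G V] (f : ℤ × ℤ → V) (W B : ℕ)
    (p : Bool → ℤ × ℤ) (l : Bool → ℕ) (u : Bool → Bool → G) : Prop where
  pos : ∀ b, 0 < l b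
  jump : ∀ b b', ∀ z ∈ rec W B, u b b' • f (z + p b') = f (z + (p b + ((l b : ℤ), 0)))
  same : ∀ b b', Same G f (rec W B) (p b) (p b')
  first : ∀ b, ∀ i : ℕ, 0 < i → i < l b → ¬ Same G f (rec W B) (p b + ((i : ℤ), 0)) (p b)
  diff : l false ≠ l true ∨ ∃ i : ℕ, i < l false ∧ ¬ Same G f (rec W B) (p false + ((i : ℤ), 0))
    (p true + ((i : ℤ), 0))

variable (p : Bool → ℤ × ℤ) (l : Bool → ℕ) (u : Bool → Bool → G)

/-- block and offset at time `t` -/
def st (l : Bool → ℕ) (ε : ℕ → Bool) : ℕ → ℕ × ℕ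
  | 0 => (0, 0)
  | t + 1 => if (st l ε t).2 + 1 < l (ε (st l ε t).1) then ((st l ε t).1, (st l ε t).2 + 1)
      else ((st l ε t).1 + 1, 0)

/-- position in the plane at time `t` -/
def ps (p : Bool → ℤ × ℤ) (l : Bool → ℕ) (ε : ℕ → Bool) (t : ℕ) : ℤ × ℤ :=
  p (ε (st l ε t).1) + (((st l ε t).2 : ℤ), 0)

/-- the group element at time `t` -/
def gg (l : Bool → ℕ) (u : Bool → Bool → G) (ε : ℕ → Bool) : ℕ → G
  | 0 => 1
  | t + 1 => if (st l ε t).2 + 1 < l (ε (st l ε t).1) then gg l u ε t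
      else gg l u ε t * u (ε (st l ε t).1) (ε ((st l ε t).1 + 1))

/-- the strip -/
def RR (f : ℤ × ℤ → V) (ε : ℕ → Bool) (z : ℤ × ℤ) : V :=
  gg l u ε z.1.toNat • f (ps p l ε z.1.toNat + (0, z.2))

theorem st_lt {ε : ℕ → Bool} (hl : ∀ b, 0 < l b) (t : ℕ) :
    (st l ε t).2 < l (ε (st l ε t).1) := by
  induction t with
  | zero => exact hl _
  | succ t ih =>
    unfold st
    split_ifs with h
    · exact h
    · exact hl _

theorem gg_succ (ε : ℕ → Bool) (t : ℕ) : gg l u ε (t + 1) =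
    if (st l ε t).2 + 1 < l (ε (st l ε t).1) then gg l u ε t
      else gg l u ε t * u (ε (st l ε t).1) (ε ((st l ε t).1 + 1)) := rfl

theorem st_succ (ε : ℕ → Bool) (t : ℕ) : st l ε (t + 1) =
    if (st l ε t).2 + 1 < l (ε (st l ε t).1) then ((st l ε t).1, (st l ε t).2 + 1)
      else ((st l ε t).1 + 1, 0) := rfl

theorem compat {f : ℤ × ℤ → V} {W B : ℕ} (hL : Loops G f W B p l u) (ε : ℕ → Bool) (t : ℕ)
    (z : ℤ × ℤ) (hz : z ∈ rec W B) :
    gg l u ε t • f (z + (1, 0) + ps p l ε t) = gg l u ε (t + 1) • f (z + ps p l ε (t + 1)) := by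
  have hlt := st_lt l (ε := ε) hL.pos t
  rw [gg_succ]
  unfold ps
  rw [st_succ]
  by_cases h : (st l ε t).2 + 1 < l (ε (st l ε t).1)
  · rw [if_pos h, if_pos h]
    have e : z + (1, 0) + (p (ε (st l ε t).1) + (((st l ε t).2 : ℤ), (0 : ℤ))) =
        z + (p (ε (st l ε t).1) + ((((st l ε t).2 + 1 : ℕ) : ℤ), (0 : ℤ))) := by
      refine Prod.ext ?_ ?_
      · simp only [Prod.fst_add]; push_cast; ring
      · simp only [Prod.snd_add]; ring
    rw [e]
  · rw [if_neg h, if_neg h]
    have e : (st l ε t).2 + 1 = l (ε (st l ε t).1) := by omega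
    have hj := hL.jump (ε (st l ε t).1) (ε ((st l ε t).1 + 1)) z hz
    simp only
    rw [mul_smul, show p (ε ((st l ε t).1 + 1)) + (((0 : ℕ) : ℤ), (0 : ℤ)) =
      p (ε ((st l ε t).1 + 1)) by simp, hj, ← e]
    have e' : z + (1, 0) + (p (ε (st l ε t).1) + (((st l ε t).2 : ℤ), (0 : ℤ))) =
        z + (p (ε (st l ε t).1) + ((((st l ε t).2 + 1 : ℕ) : ℤ), (0 : ℤ))) := by
      refine Prod.ext ?_ ?_
      · simp only [Prod.fst_add]; push_cast; ring
      · simp only [Prod.snd_add]; ring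
    rw [e']

theorem window {f : ℤ × ℤ → V} {W B : ℕ} (hL : Loops G f W B p l u) (ε : ℕ → Bool) (x : ℕ)
    (hx : x ≤ W) : ∀ (t : ℕ) (y : ℤ), 0 ≤ y → y ≤ B →
      RR p l u f ε ((t : ℤ) + x, y) = gg l u ε t • f (((x : ℤ), y) + ps p l ε t) := by
  induction x with
  | zero =>
    intro t y _ _
    unfold RR
    simp only [Nat.cast_zero, add_zero, Int.toNat_natCast]
    rw [add_comm]
  | succ x ih =>
    intro t y h1 h2
    have h3 := ih (by omega) (t + 1) y h1 h2
    have h4 := compat p l u hL ε t ((x : ℤ), y) ⟨by simp, by simp; omega, h1, h2⟩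
    rw [show (t : ℤ) + ((x + 1 : ℕ) : ℤ) = ((t + 1 : ℕ) : ℤ) + x by push_cast; ring, h3, ← h4]
    congr 2
    refine Prod.ext ?_ ?_
    · simp only [Prod.fst_add]; push_cast; ring
    · simp only [Prod.snd_add]; ring

/-- start of the block `j` -/
def T (l : Bool → ℕ) (ε : ℕ → Bool) (j : ℕ) : ℕ := ∑ i ∈ Finset.range j, l (ε i)

theorem st_block {ε : ℕ → Bool} (hl : ∀ b, 0 < l b) {t0 j : ℕ} (h0 : st l ε t0 = (j, 0)) (i : ℕ)
    (hi : i < l (ε j)) : st l ε (t0 + i) = (j, i) := by
  induction i with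
  | zero => exact h0
  | succ i ih =>
    have := ih (by omega)
    rw [← add_assoc, st, this]
    simp only
    rw [if_pos hi]

theorem st_next {ε : ℕ → Bool} (hl : ∀ b, 0 < l b) {t0 j : ℕ} (h0 : st l ε t0 = (j, 0)) :
    st l ε (t0 + l (ε j)) = (j + 1, 0) := by
  obtain ⟨i, hi⟩ := Nat.exists_eq_add_of_lt (hl (ε j))
  rw [zero_add] at hi
  have := st_block l hl h0 i (by omega)
  rw [hi, ← add_assoc, st, this]
  simp only
  rw [if_neg (by omega)]

theorem st_T {ε : ℕ → Bool} (hl : ∀ b, 0 < l b) (j : ℕ) : st l ε (T l ε j) = (j, 0) := by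
  induction j with
  | zero => rfl
  | succ j ih =>
    have : T l ε (j + 1) = T l ε j + l (ε j) := Finset.sum_range_succ _ _
    rw [this]
    exact st_next l hl ih

theorem T_le {ε : ℕ → Bool} (j : ℕ) : T l ε j ≤ j * (l false + l true) := by
  unfold T
  calc ∑ i ∈ Finset.range j, l (ε i) ≤ ∑ _i ∈ Finset.range j, (l false + l true) := by
        refine Finset.sum_le_sum fun i _ => ?_
        cases ε i <;> omega
    _ = _ := by simp

theorem T_congr {ε ε' : ℕ → Bool} {j : ℕ} (h : ∀ i < j, ε i = ε' i) : T l ε j = T l ε' j := by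
  unfold T
  refine Finset.sum_congr rfl fun i hi => ?_
  rw [h i (Finset.mem_range.1 hi)]

/-- the sequence of patterns determines the sequence of blocks -/
theorem decode {f : ℤ × ℤ → V} {W B : ℕ} (hL : Loops G f W B p l u) {ε ε' : ℕ → Bool} (k : ℕ)
    (h : ∀ t ≤ k * (l false + l true), Same G f (rec W B) (ps p l ε t) (ps p l ε' t)) :
    ∀ j < k, ε j = ε' j := by
  have hl := hL.pos
  -- the asymmetric case
  have key : ∀ (ε ε' : ℕ → Bool), (∀ t ≤ k * (l false + l true),
      Same G f (rec W B) (ps p l ε t) (ps p l ε' t)) → ∀ j < k, (∀ i < j, ε i = ε' i) →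
      ε j = false → ε' j = true → False := by
    intro ε ε' h j hj hjj e1 e2
    have a1 := st_T l (ε := ε) hl j
    have a2 := st_T l (ε := ε') hl j
    rw [← T_congr l hjj] at a2
    set t0 := T l ε j with ht0
    have hb : t0 + (l false + l true) ≤ k * (l false + l true) := by
      have := T_le l (ε := ε) j
      calc t0 + (l false + l true) ≤ j * (l false + l true) + (l false + l true) := by omega
        _ = (j + 1) * (l false + l true) := by ring
        _ ≤ k * (l false + l true) := Nat.mul_le_mul_right _ hj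
    have hp1 : ∀ i < l false, ps p l ε (t0 + i) = p false + ((i : ℤ), 0) := by
      intro i hi
      unfold ps
      rw [st_block l hl a1 i (by rw [e1]; exact hi)]
      simp only
      rw [e1]
    have hp2 : ∀ i < l true, ps p l ε' (t0 + i) = p true + ((i : ℤ), 0) := by
      intro i hi
      unfold ps
      rw [st_block l hl a2 i (by rw [e2]; exact hi)]
      simp only
      rw [e2]
    have hq1 : ∃ b, ps p l ε (t0 + l false) = p b := by
      refine ⟨ε (j + 1), ?_⟩
      unfold ps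
      have := st_next l hl a1
      rw [e1] at this
      rw [this]
      simp
    have hq2 : ∃ b, ps p l ε' (t0 + l true) = p b := by
      refine ⟨ε' (j + 1), ?_⟩
      unfold ps
      have := st_next l hl a2
      rw [e2] at this
      rw [this]
      simp
    rcases lt_trichotomy (l false) (l true) with h1 | h1 | h1
    · obtain ⟨b, hb1⟩ := hq1
      have h2 := h (t0 + l false) (by omega)
      rw [hb1, hp2 _ h1] at h2
      exact hL.first true (l false) (hl _) h1 (h2.symm.trans (hL.same b true))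
    · rcases hL.diff with h2 | ⟨i, hi, h2⟩
      · exact h2 h1
      · apply h2
        have h3 := h (t0 + i) (by omega)
        rwa [hp1 i hi, hp2 i (by omega)] at h3
    · obtain ⟨b, hb1⟩ := hq2
      have h2 := h (t0 + l true) (by omega)
      rw [hb1, hp1 _ h1] at h2
      exact hL.first false (l true) (hl _) h1 (h2.trans (hL.same b false))
  intro j
  induction j using Nat.strong_induction_on with
  | _ j ih =>
    intro hj
    by_contra hne
    have hjj : ∀ i < j, ε i = ε' i := fun i hi => ih i hi (by omega)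
    rcases h1 : ε j with _ | _
    · rcases h2 : ε' j with _ | _
      · exact hne (h1.trans h2.symm)
      · exact key ε ε' h j hj hjj h1 h2
    · rcases h2 : ε' j with _ | _
      · exact key ε' ε (fun t ht => (h t ht).symm) j hj (fun i hi => (hjj i hi).symm) h2 h1
      · exact hne (h1.trans h2.symm)

/-- the strips are flat -/
theorem RR_iso (hA : Act G Γ) {f : ℤ × ℤ → V} (hf : IsFlat Γ f) {W B : ℕ}
    (hL : Loops G f W B p l u) (hW : 2 ≤ W) (ε : ℕ → Bool) (x x' : ℕ) (y y' : ℤ)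
    (h1 : 0 ≤ y) (h2 : y ≤ B) (h3 : 0 ≤ y') (h4 : y' ≤ B) :
    (Γ.dist (RR p l u f ε (x, y)) (RR p l u f ε (x', y')) : ℤ) = |(x : ℤ) - x'| + |y - y'| := by
  wlog hxx : x ≤ x' generalizing x x' y y'
  · rw [dcomm, this x' x y' y h3 h4 h1 h2 (by omega), abs_sub_comm, abs_sub_comm y' y]
  obtain ⟨j, rfl⟩ := Nat.exists_eq_add_of_le hxx
  set v := RR p l u f ε (x, y) with hv
  have hloc : ∀ (a b : ℕ) (t : ℕ) (c c' : ℤ), a ≤ W → b ≤ W → 0 ≤ c → c ≤ B → 0 ≤ c' → c' ≤ B →
      (Γ.dist (RR p l u f ε ((t : ℤ) + a, c)) (RR p l u f ε ((t : ℤ) + b, c')) : ℤ) =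
        |(a : ℤ) - b| + |c - c'| := by
    intro a b t c c' ha hb h5 h6 h7 h8
    rw [window p l u hL ε a ha t c h5 h6, window p l u hL ε b hb t c' h7 h8, hA.dist, hf]
    simp
  -- steps
  have hstep : ∀ i : ℕ, Γ.Adj (RR p l u f ε (((x + i : ℕ) : ℤ), y'))
      (RR p l u f ε (((x + (i + 1) : ℕ) : ℤ), y')) := by
    intro i
    rw [← adj_iff]
    have := hloc 0 1 (x + i) y' y' (by omega) (by omega) h3 h4 h3 h4
    rw [show ((x + i : ℕ) : ℤ) + ((0 : ℕ) : ℤ) = ((x + i : ℕ) : ℤ) by simp,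
      show ((x + i : ℕ) : ℤ) + ((1 : ℕ) : ℤ) = ((x + (i + 1) : ℕ) : ℤ) by push_cast; ring] at this
    have h9 : |((0 : ℕ) : ℤ) - ((1 : ℕ) : ℤ)| + |y' - y'| = 1 := by simp
    rw [h9] at this
    omega
  have key : ∀ i : ℕ, (Γ.dist v (RR p l u f ε (((x + i : ℕ) : ℤ), y')) : ℤ) = i + |y - y'| ∧
      (Γ.dist v (RR p l u f ε (((x + (i + 1) : ℕ) : ℤ), y')) : ℤ) = (i + 1) + |y - y'| := by
    intro i
    induction i with
    | zero =>
      have a1 := hloc 0 0 x y y' (by omega) (by omega) h1 h2 h3 h4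
      have a2 := hloc 0 1 x y y' (by omega) (by omega) h1 h2 h3 h4
      rw [show (x : ℤ) + ((0 : ℕ) : ℤ) = (x : ℤ) by simp] at a1 a2
      rw [show (x : ℤ) + ((1 : ℕ) : ℤ) = ((x + (0 + 1) : ℕ) : ℤ) by push_cast; ring] at a2
      refine ⟨?_, ?_⟩
      · rw [hv, add_zero, a1]; simp
      · rw [hv, a2]; simp
    | succ i ih =>
      refine ⟨?_, ?_⟩
      · rw [ih.2]; push_cast; ring
      · have b1 := hA.med.ne_dist (hstep (i + 1)) v
        rcases b1 with b1 | b1
        · exfalso
          -- a local maximum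
          have w0 := window p l u hL ε 0 (by omega) (x + i) y' h3 h4
          have w1 := window p l u hL ε 1 (by omega) (x + i) y' h3 h4
          have w2 := window p l u hL ε 2 hW (x + i) y' h3 h4
          set g := gg l u ε (x + i) with hg
          set c := ps p l ε (x + i) with hc
          rw [show ((x + i : ℕ) : ℤ) + ((0 : ℕ) : ℤ) = ((x + i : ℕ) : ℤ) by simp] at w0
          rw [show ((x + i : ℕ) : ℤ) + ((1 : ℕ) : ℤ) = ((x + (i + 1) : ℕ) : ℤ) by
            push_cast; ring] at w1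
          rw [show ((x + i : ℕ) : ℤ) + ((2 : ℕ) : ℤ) = ((x + (i + 1 + 1) : ℕ) : ℤ) by
            push_cast; ring] at w2
          have d0 := ih.1
          have d1 := ih.2
          rw [w0] at d0
          rw [w1] at d1
          rw [w1, w2] at b1
          have tr : ∀ q : V, Γ.dist v (g • q) = Γ.dist (g⁻¹ • v) q := by
            intro q
            rw [← hA.dist g (g⁻¹ • v) q, smul_inv_smul]
          rw [tr] at d0 d1
          rw [tr, tr] at b1
          refine no_max hA.med hA.n3 hf (g⁻¹ • v) (c.1 + 1) (c.2 + y') ?_ ?_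
          · have e1 : ((c.1 + 1, c.2 + y') : ℤ × ℤ) = (((1 : ℕ) : ℤ), y') + c := by
              refine Prod.ext ?_ ?_ <;> simp <;> ring
            have e0 : ((c.1 + 1 - 1, c.2 + y') : ℤ × ℤ) = (((0 : ℕ) : ℤ), y') + c := by
              refine Prod.ext ?_ ?_ <;> simp <;> ring
            rw [e1, e0]
            omega
          · have e1 : ((c.1 + 1, c.2 + y') : ℤ × ℤ) = (((1 : ℕ) : ℤ), y') + c := by
              refine Prod.ext ?_ ?_ <;> simp <;> ring
            have e2 : ((c.1 + 1 + 1, c.2 + y') : ℤ × ℤ) = (((2 : ℕ) : ℤ), y') + c := by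
              refine Prod.ext ?_ ?_ <;> simp <;> ring
            rw [e1, e2]
            exact b1
        · have := ih.2
          push_cast at this b1 ⊢
          omega
  rw [(key j).1, show ((x : ℤ) - ((x + j : ℕ) : ℤ)) = -(j : ℤ) by push_cast; ring, abs_neg,
    Nat.abs_cast]

end Pool.Agent.V5helper35.WF
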