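import Pool.Agent.N47.SQ.Rect

/-!
# Counting the patterns of a flat plane up to the group
-/

set_option autoImplicit false

namespace Pool.Agent.V5helper35.WF

open Function Set Pool.Agent.N47.SQ

variable {V : Type*} {G : Type*} [Group G] [MulAction G V] {Γ : SimpleGraph V}

/-- the windows `b + D` and `b' + D` of `f` carry the same pattern up to `G` -/
def Same (G : Type*) {V : Type*} [Group G] [MulAction G V] (f : ℤ × ℤ → V) (D : Set (ℤ × ℤ))
    (b b' : ℤ × ℤ) : Prop := ∃ g : G, ∀ z ∈ D, g • f (z + b) = f (z + b')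

theorem Same.refl (f : ℤ × ℤ → V) (D : Set (ℤ × ℤ)) (b : ℤ × ℤ) : Same G f D b b :=
  ⟨1, fun z _ => one_smul _ _⟩

theorem Same.symm {f : ℤ × ℤ → V} {D : Set (ℤ × ℤ)} {b b' : ℤ × ℤ} (h : Same G f D b b') :
    Same G f D b' b := by
  obtain ⟨g, hg⟩ := h
  exact ⟨g⁻¹, fun z hz => by rw [← hg z hz, inv_smul_smul]⟩

theorem Same.trans {f : ℤ × ℤ → V} {D : Set (ℤ × ℤ)} {b b' b'' : ℤ × ℤ} (h : Same G f D b b')
    (h' : Same G f D b' b'') : Same G f D b b'' := by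
  obtain ⟨g, hg⟩ := h
  obtain ⟨g', hg'⟩ := h'
  exact ⟨g' * g, fun z hz => by rw [mul_smul, hg z hz, hg' z hz]⟩

theorem Same.mono {f : ℤ × ℤ → V} {D D' : Set (ℤ × ℤ)} (hD : D ⊆ D') {b b' : ℤ × ℤ}
    (h : Same G f D' b b') : Same G f D b b' := by
  obtain ⟨g, hg⟩ := h
  exact ⟨g, fun z hz => hg z (hD hz)⟩

/-- the class of the position `b` -/
def cls (G : Type*) {V : Type*} [Group G] [MulAction G V] (f : ℤ × ℤ → V) (D : Set (ℤ × ℤ))
    (b : ℤ × ℤ) : Set (ℤ × ℤ) := {b' | Same G f D b b'}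

theorem cls_eq_iff {f : ℤ × ℤ → V} {D : Set (ℤ × ℤ)} {b b' : ℤ × ℤ} :
    cls G f D b = cls G f D b' ↔ Same G f D b b' := by
  constructor
  · intro h
    have h1 : b' ∈ cls G f D b' := Same.refl f D b'
    rw [← h] at h1
    exact h1
  · intro h
    ext c
    exact ⟨fun hc => h.symm.trans hc, fun hc => h.trans hc⟩

/-- the number of patterns of shape `D` -/
noncomputable def cnt (G : Type*) {V : Type*} [Group G] [MulAction G V] (f : ℤ × ℤ → V)
    (D : Set (ℤ × ℤ)) : ℕ := (range (cls G f D)).ncard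

/-- finitely many patterns -/
def Fin' (G : Type*) {V : Type*} [Group G] [MulAction G V] (f : ℤ × ℤ → V)
    (D : Set (ℤ × ℤ)) : Prop := (range (cls G f D)).Finite

open scoped Classical in
/-- a representative -/
noncomputable def rep (c : Set (ℤ × ℤ)) : ℤ × ℤ := if h : c.Nonempty then h.choose else 0

theorem rep_mem (f : ℤ × ℤ → V) (D : Set (ℤ × ℤ)) (b : ℤ × ℤ) :
    Same G f D b (rep (cls G f D b)) := by
  have h : (cls G f D b).Nonempty := ⟨b, Same.refl f D b⟩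
  unfold rep
  rw [dif_pos h]
  exact h.choose_spec

theorem cls_rep (f : ℤ × ℤ → V) (D : Set (ℤ × ℤ)) {c : Set (ℤ × ℤ)} (hc : c ∈ range (cls G f D)) :
    cls G f D (rep c) = c := by
  obtain ⟨b, rfl⟩ := hc
  exact (cls_eq_iff.2 (rep_mem f D b)).symm

theorem inj_fin {f : ℤ × ℤ → V} {D : Set (ℤ × ℤ)} {T : Type*} (Φ : ℤ × ℤ → T) (B : Set T)
    (hB : B.Finite) (h1 : ∀ b, Φ b ∈ B) (h2 : ∀ b b', Φ b = Φ b' → Same G f D b b') :
    Fin' G f D ∧ cnt G f D ≤ B.ncard := by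
  have hinj : InjOn (fun c => Φ (rep c)) (range (cls G f D)) := by
    intro c hc c' hc' h
    rw [← cls_rep f D hc, ← cls_rep f D hc', cls_eq_iff]
    exact h2 _ _ h
  exact ⟨Set.Finite.of_injOn (t := B) (fun c _ => h1 _) hinj hB,
    Set.ncard_le_ncard_of_injOn _ (fun c _ => h1 _) hinj hB⟩

theorem coarse {f : ℤ × ℤ → V} {D D' : Set (ℤ × ℤ)} (hf : Fin' G f D')
    (h : ∀ b b', Same G f D' b b' → Same G f D b b') : Fin' G f D ∧ cnt G f D ≤ cnt G f D' :=
  inj_fin (cls G f D') _ hf (fun b => ⟨b, rfl⟩) fun b b' hb => h b b' (cls_eq_iff.1 hb)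

/-- a bound for the degrees -/
def Deg (Γ : SimpleGraph V) (d : ℕ) : Prop := ∀ v, (Γ.neighborSet v).Finite ∧
  (Γ.neighborSet v).ncard ≤ d

/-- one more vertex -/
theorem step {d : ℕ} (haut : ∀ (g : G) (a b : V), Γ.Adj a b → Γ.Adj (g • a) (g • b))
    (hd : Deg Γ d) {f : ℤ × ℤ → V} {D : Set (ℤ × ℤ)} (hf : Fin' G f D)
    {p e : ℤ × ℤ} (hp : p ∈ D) (he : ∀ b, Γ.Adj (f (p + b)) (f (e + b))) :
    Fin' G f (insert e D) ∧ cnt G f (insert e D) ≤ cnt G f D * d := by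
  classical
  have hr : ∀ b, ∃ g : G, ∀ z ∈ D, g • f (z + b) = f (z + rep (cls G f D b)) := fun b =>
    rep_mem f D b
  choose γ hγ using hr
  set Q : Finset (Set (ℤ × ℤ)) := Set.Finite.toFinset hf with hQ
  set T : Finset (Set (ℤ × ℤ) × V) := Q.biUnion fun c =>
    ((hd (f (p + rep c))).1.toFinset).image fun w => (c, w) with hT
  have hTc : T.card ≤ cnt G f D * d := by
    have h1 : T.card ≤ Q.card * d := by
      refine Finset.card_biUnion_le_card_mul _ _ _ fun c _ => ?_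
      refine Finset.card_image_le.trans ?_
      rw [← Set.ncard_eq_toFinset_card _ (hd (f (p + rep c))).1]
      exact (hd _).2
    have h2 : Q.card = cnt G f D := by
      rw [hQ]
      exact (Set.ncard_eq_toFinset_card _ hf).symm
    rwa [h2] at h1
  have := inj_fin (G := G) (f := f) (D := insert e D)
    (fun b => (cls G f D b, γ b • f (e + b))) (T : Set (Set (ℤ × ℤ) × V)) T.finite_toSet ?_ ?_
  · rw [Set.ncard_coe_finset] at this
    exact ⟨this.1, this.2.trans hTc⟩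
  · intro b
    rw [Finset.mem_coe, hT, Finset.mem_biUnion]
    refine ⟨cls G f D b, ?_, ?_⟩
    · rw [hQ, Set.Finite.mem_toFinset]
      exact ⟨b, rfl⟩
    · rw [Finset.mem_image]
      refine ⟨_, ?_, rfl⟩
      rw [Set.Finite.mem_toFinset, SimpleGraph.mem_neighborSet, ← hγ b p hp]
      exact haut _ _ _ (he b)
  · intro b b' hb
    rw [Prod.mk.injEq] at hb
    obtain ⟨h1, h2⟩ := hb
    refine ⟨(γ b')⁻¹ * γ b, fun z hz => ?_⟩
    rw [mul_smul, inv_smul_eq_iff]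
    rcases hz with rfl | hz
    · exact h2
    · rw [hγ b z hz, hγ b' z hz, h1]

/-- special patterns -/
theorem special {f : ℤ × ℤ → V} {D D' : Set (ℤ × ℤ)} (hf : Fin' G f D')
    (h : ∀ b b', Same G f D' b b' → Same G f D b b') :
    cnt G f D + {c | ∃ b b', cls G f D b = c ∧ cls G f D b' = c ∧ ¬ Same G f D' b b'}.ncard ≤
      cnt G f D' := by
  classical
  set Sp : Set (Set (ℤ × ℤ)) :=
    {c | ∃ b b', cls G f D b = c ∧ cls G f D b' = c ∧ ¬ Same G f D' b b'} with hSp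
  have hFD := (coarse hf h).1
  have hsub : Sp ⊆ range (cls G f D) := by
    rintro c ⟨b, _, h1, _, _⟩
    exact ⟨b, h1⟩
  have hSpf : Sp.Finite := hFD.subset hsub
  -- the first section
  set s : Set (ℤ × ℤ) → Set (ℤ × ℤ) := fun c => cls G f D' (rep c) with hs
  have hne : ∀ c ∈ Sp, ∃ b, cls G f D b = c ∧ cls G f D' b ≠ s c := by
    rintro c ⟨b, b', h1, h2, h3⟩
    by_cases h4 : cls G f D' b = s c
    · refine ⟨b', h2, fun h5 => h3 ?_⟩
      exact cls_eq_iff.1 (h4.trans h5.symm)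
    · exact ⟨b, h1, h4⟩
  choose! t ht1 ht2 using hne
  have hF : ∀ b b', cls G f D' b = cls G f D' b' → cls G f D b = cls G f D b' := fun b b' hb =>
    cls_eq_iff.2 (h b b' (cls_eq_iff.1 hb))
  have hA : InjOn s (range (cls G f D)) := by
    intro c hc c' hc' hcc
    have := hF _ _ hcc
    rwa [cls_rep f D hc, cls_rep f D hc'] at this
  have hB : InjOn (fun c => cls G f D' (t c)) Sp := by
    intro c hc c' hc' hcc
    have := hF _ _ hcc
    rwa [ht1 c hc, ht1 c' hc'] at this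
  have hdisj : Disjoint (s '' range (cls G f D)) ((fun c => cls G f D' (t c)) '' Sp) := by
    rw [Set.disjoint_left]
    rintro _ ⟨c, hc, rfl⟩ ⟨c', hc', hcc⟩
    have h1 := hF _ _ hcc
    rw [ht1 c' hc', cls_rep f D hc] at h1
    subst h1
    exact ht2 c' hc' hcc
  have h1 : (s '' range (cls G f D) ∪ (fun c => cls G f D' (t c)) '' Sp).ncard =
      cnt G f D + Sp.ncard := by
    rw [Set.ncard_union_eq hdisj (hFD.image _) (hSpf.image _), Set.ncard_image_of_injOn hA,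
      Set.ncard_image_of_injOn hB]
    rfl
  rw [← h1]
  refine Set.ncard_le_ncard ?_ hf
  rintro _ (⟨c, _, rfl⟩ | ⟨c, _, rfl⟩)
  · exact ⟨_, rfl⟩
  · exact ⟨_, rfl⟩

/-- rectangles -/
def rec (a b : ℕ) : Set (ℤ × ℤ) := {z | 0 ≤ z.1 ∧ z.1 ≤ a ∧ 0 ≤ z.2 ∧ z.2 ≤ b}

theorem mem_rec {a b : ℕ} {z : ℤ × ℤ} : z ∈ rec a b ↔ 0 ≤ z.1 ∧ z.1 ≤ a ∧ 0 ≤ z.2 ∧ z.2 ≤ b :=
  Iff.rfl

theorem row_up (hA : Act G Γ) {f : ℤ × ℤ → V} (hf : IsFlat Γ f) (a b : ℕ) (c c' : ℤ × ℤ)
    (h : Same G f (insert (0, (b : ℤ) + 1) (rec a b)) c c') : Same G f (rec a (b + 1)) c c' := by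
  obtain ⟨g, hg⟩ := h
  have key : ∀ x ∈ Set.Icc (0 : ℤ) a, g • f ((x, (b : ℤ) + 1) + c) = f ((x, (b : ℤ) + 1) + c') := by
    refine row_prop hA.med (f := fun z => g • f (z + c)) (g := fun z => f (z + c')) (hf.smul hA g c)
      (by simpa using hf.smul hA 1 c') (y := b) (y' := b + 1) (by simp) Set.ordConnected_Icc ?_
      (x₀ := 0) ⟨le_rfl, by omega⟩ (hg _ (mem_insert _ _))
    intro x hx
    exact hg _ (mem_insert_of_mem _ ⟨hx.1, hx.2, by simp, by simp⟩)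
  refine ⟨g, fun z hz => ?_⟩
  obtain ⟨x, y⟩ := z
  obtain ⟨h1, h2, h3, h4⟩ := hz
  simp only at h1 h2 h3 h4
  push_cast at h4
  rcases (show y ≤ b ∨ y = b + 1 by omega) with h5 | rfl
  · exact hg _ (mem_insert_of_mem _ ⟨h1, h2, h3, h5⟩)
  · exact key x ⟨h1, h2⟩

theorem col_right (hA : Act G Γ) {f : ℤ × ℤ → V} (hf : IsFlat Γ f) (a b : ℕ) (c c' : ℤ × ℤ)
    (h : Same G f (insert ((a : ℤ) + 1, 0) (rec a b)) c c') : Same G f (rec (a + 1) b) c c' := by
  obtain ⟨g, hg⟩ := h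
  have key : ∀ y ∈ Set.Icc (0 : ℤ) b, g • f (((a : ℤ) + 1, y) + c) = f (((a : ℤ) + 1, y) + c') := by
    refine col_prop hA.med (f := fun z => g • f (z + c)) (g := fun z => f (z + c')) (hf.smul hA g c)
      (by simpa using hf.smul hA 1 c') (x := a) (x' := a + 1) (by simp) Set.ordConnected_Icc ?_
      (y₀ := 0) ⟨le_rfl, by omega⟩ (hg _ (mem_insert _ _))
    intro y hy
    exact hg _ (mem_insert_of_mem _ ⟨by simp, by simp, hy.1, hy.2⟩)
  refine ⟨g, fun z hz => ?_⟩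
  obtain ⟨x, y⟩ := z
  obtain ⟨h1, h2, h3, h4⟩ := hz
  simp only at h1 h2 h3 h4
  push_cast at h2
  rcases (show x ≤ a ∨ x = a + 1 by omega) with h5 | rfl
  · exact hg _ (mem_insert_of_mem _ ⟨h1, h5, h3, h4⟩)
  · exact key y ⟨h3, h4⟩

theorem cnt_up (hA : Act G Γ) {d : ℕ} (hd : Deg Γ d) {f : ℤ × ℤ → V} (hf : IsFlat Γ f) (a b : ℕ)
    (h : Fin' G f (rec a b)) :
    Fin' G f (rec a (b + 1)) ∧ cnt G f (rec a (b + 1)) ≤ cnt G f (rec a b) * d := by
  have h1 := step hA.aut hd h (p := (0, (b : ℤ))) (e := (0, (b : ℤ) + 1)) ⟨by simp, by simp, by simp, by simp⟩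
    (fun c => hf.adj (by simp))
  have h2 := coarse h1.1 (row_up hA hf a b)
  exact ⟨h2.1, h2.2.trans h1.2⟩

theorem cnt_right (hA : Act G Γ) {d : ℕ} (hd : Deg Γ d) {f : ℤ × ℤ → V} (hf : IsFlat Γ f) (a b : ℕ)
    (h : Fin' G f (rec a b)) :
    Fin' G f (rec (a + 1) b) ∧ cnt G f (rec (a + 1) b) ≤ cnt G f (rec a b) * d := by
  have h1 := step hA.aut hd h (p := ((a : ℤ), 0)) (e := ((a : ℤ) + 1, 0)) ⟨by simp, by simp, by simp, by simp⟩
    (fun c => hf.adj (by simp))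
  have h2 := coarse h1.1 (col_right hA hf a b)
  exact ⟨h2.1, h2.2.trans h1.2⟩

theorem cnt_zero (hA : Act G Γ) {K : Set V} (hK : K.Finite) (hGK : ∀ v : V, ∃ g : G, g • v ∈ K)
    (f : ℤ × ℤ → V) : Fin' G f (rec 0 0) ∧ cnt G f (rec 0 0) ≤ K.ncard := by
  choose g hg using fun b : ℤ × ℤ => hGK (f b)
  refine inj_fin (fun b => g b • f b) K hK hg fun b b' h => ⟨(g b')⁻¹ * g b, fun z hz => ?_⟩
  have hz0 : z = 0 := by
    obtain ⟨h1, h2, h3, h4⟩ := hz
    exact Prod.ext (by simp at h2 ⊢; omega) (by simp at h4 ⊢; omega)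
  subst hz0
  rw [zero_add, zero_add, mul_smul, inv_smul_eq_iff]
  exact h

theorem fin_rec (hA : Act G Γ) {d : ℕ} (hd : Deg Γ d) {f : ℤ × ℤ → V} (hf : IsFlat Γ f) (a b : ℕ) :
    Fin' G f (rec a b) := by
  obtain ⟨K, hK, hGK⟩ := hA.orb
  induction b with
  | zero =>
    induction a with
    | zero => exact (cnt_zero hA hK hGK f).1
    | succ a ih => exact (cnt_right hA hd hf a 0 ih).1
  | succ b ih => exact (cnt_up hA hd hf a b ih).1

theorem cnt_up' (hA : Act G Γ) {d : ℕ} (hd : Deg Γ d) {f : ℤ × ℤ → V} (hf : IsFlat Γ f)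
    (a b s : ℕ) : cnt G f (rec a (b + s)) ≤ cnt G f (rec a b) * d ^ s := by
  induction s with
  | zero => simp
  | succ s ih =>
    refine (cnt_up hA hd hf a (b + s) (fin_rec hA hd hf _ _)).2.trans ?_
    calc cnt G f (rec a (b + s)) * d ≤ cnt G f (rec a b) * d ^ s * d := Nat.mul_le_mul_right d ih
      _ = _ := by ring

theorem cnt_right' (hA : Act G Γ) {d : ℕ} (hd : Deg Γ d) {f : ℤ × ℤ → V} (hf : IsFlat Γ f)
    (a b s : ℕ) : cnt G f (rec (a + s) b) ≤ cnt G f (rec a b) * d ^ s := by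
  induction s with
  | zero => simp
  | succ s ih =>
    refine (cnt_right hA hd hf (a + s) b (fin_rec hA hd hf _ _)).2.trans ?_
    calc cnt G f (rec (a + s) b) * d ≤ cnt G f (rec a b) * d ^ s * d := Nat.mul_le_mul_right d ih
      _ = _ := by ring

theorem cnt_pos {f : ℤ × ℤ → V} {D : Set (ℤ × ℤ)} (h : Fin' G f D) : 1 ≤ cnt G f D := by
  have h1 : (range (cls G f D)).Nonempty := ⟨_, 0, rfl⟩
  exact (Set.ncard_pos h).2 h1

/-- exchange of the coordinates -/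
theorem cnt_swap (f : ℤ × ℤ → V) (D : Set (ℤ × ℤ)) :
    cnt G (fun z => f (z.2, z.1)) D = cnt G f {z | (z.2, z.1) ∈ D} := by
  have key : ∀ b b' : ℤ × ℤ, Same G (fun z => f (z.2, z.1)) D b b' ↔
      Same G f {z | (z.2, z.1) ∈ D} (b.2, b.1) (b'.2, b'.1) := by
    intro b b'
    constructor
    · rintro ⟨g, hg⟩
      refine ⟨g, fun z hz => ?_⟩
      have := hg (z.2, z.1) hz
      simpa [Prod.add_def] using this
    · rintro ⟨g, hg⟩
      refine ⟨g, fun z hz => ?_⟩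
      have := hg (z.2, z.1) (by simpa using hz)
      simpa [Prod.add_def] using this
  have e : range (cls G (fun z => f (z.2, z.1)) D) =
      (fun c : Set (ℤ × ℤ) => Prod.swap ⁻¹' c) '' range (cls G f {z | (z.2, z.1) ∈ D}) := by
    ext c
    constructor
    · rintro ⟨b, rfl⟩
      refine ⟨_, ⟨(b.2, b.1), rfl⟩, ?_⟩
      ext b'
      simp only [Set.mem_preimage, cls, Set.mem_setOf_eq]
      rw [key]
      rfl
    · rintro ⟨_, ⟨b, rfl⟩, rfl⟩
      refine ⟨(b.2, b.1), ?_⟩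
      ext b'
      simp only [Set.mem_preimage, cls, Set.mem_setOf_eq]
      rw [key]
      rfl
  unfold cnt
  rw [e]
  apply Set.ncard_image_of_injective
  exact Set.preimage_injective.2 Prod.swap_surjective

end Pool.Agent.V5helper35.WF
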