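import Pool.Agent.V5helper35.WF.Main

/-!
# Complexity of the words on the lines of a flat plane
-/

set_option autoImplicit false

namespace Pool.Agent.V5helper35.WF

open Function Set Pool.Agent.N47.SQ Filter

variable {V : Type*} {G : Type*} [Group G] [MulAction G V] {Γ : SimpleGraph V}

theorem exists_deg (hA : Act G Γ) : ∃ d : ℕ, Deg Γ d := by
  obtain ⟨K, hK, hGK⟩ := hA.orb
  refine ⟨∑ w ∈ hK.toFinset, (Γ.neighborSet w).ncard, fun v => ⟨hA.fin v, ?_⟩⟩
  obtain ⟨g, hg⟩ := hGK v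
  have h1 : (Γ.neighborSet v).ncard ≤ (Γ.neighborSet (g • v)).ncard := by
    refine Set.ncard_le_ncard_of_injOn (fun w => g • w) (fun w hw => hA.aut g v w hw) ?_
      (hA.fin (g • v))
    intro w _ w' _ h
    exact MulAction.injective g h
  exact h1.trans (Finset.single_le_sum (f := fun w => (Γ.neighborSet w).ncard)
    (fun _ _ => Nat.zero_le _) (hK.mem_toFinset.2 hg))

theorem deg_pos {d : ℕ} (hd : Deg Γ d) {f : ℤ × ℤ → V} (hf : IsFlat Γ f) : 1 ≤ d := by
  refine le_trans ?_ (hd (f 0)).2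
  refine (Set.ncard_pos (hd (f 0)).1).2 ⟨f (1, 0), ?_⟩
  exact hf.adj (by simp)

theorem base (hA : Act G Γ) {d : ℕ} (hd : Deg Γ d)
    (hZ : ¬ ∃ φ : Multiplicative (ℤ × ℤ) →* G, Injective φ)
    {f : ℤ × ℤ → V} (hf : IsFlat Γ f) :
    ∃ C : ℕ, 0 < C ∧ ∀ m n : ℕ, C * cnt G f (rec 0 n) ≤ m → m * n ≤ C * cnt G f (rec m 0) := by
  obtain ⟨L, hLf, hL⟩ := (Orb.sys hA hf).exists_min hA ⟨f, Orb.self f⟩
  obtain ⟨s, hs, hU⟩ := us' hA hL
  have hd1 := deg_pos hd hf
  refine ⟨2 * ((s + 1) * d ^ (2 * s)), by positivity, fun m n hmn => ?_⟩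
  have hγ := cnt_pos (fin_rec hA hd hf 0 n)
  set γ := cnt G f (rec 0 n) with hγd
  -- the threshold
  have h1 : cnt G f (rec s (n + s)) ≤ γ * d ^ (2 * s) := by
    have e1 := cnt_right' hA hd hf 0 (n + s) s
    rw [zero_add] at e1
    have e2 := cnt_up' hA hd hf 0 n s
    calc cnt G f (rec s (n + s)) ≤ cnt G f (rec 0 (n + s)) * d ^ s := e1
      _ ≤ γ * d ^ s * d ^ s := Nat.mul_le_mul_right _ e2
      _ = _ := by rw [two_mul, pow_add]; ring
  have hdp : 1 ≤ d ^ (2 * s) := Nat.one_le_pow _ _ hd1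
  have h2 : s + cnt G f (rec s (n + s)) ≤ (s + 1) * d ^ (2 * s) * γ := by
    have : s ≤ s * d ^ (2 * s) * γ := by
      calc s = s * 1 * 1 := by ring
        _ ≤ s * d ^ (2 * s) * γ := Nat.mul_le_mul (Nat.mul_le_mul_left _ hdp) hγ
    calc s + cnt G f (rec s (n + s)) ≤ s * d ^ (2 * s) * γ + γ * d ^ (2 * s) :=
          Nat.add_le_add this h1
      _ = _ := by ring
  set a0 := s + cnt G f (rec s (n + s)) with ha0
  have key : ∀ j : ℕ, j * n ≤ cnt G f (rec (a0 + j) s) := by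
    intro j
    induction j with
    | zero => simp
    | succ j ih =>
      have := main_ineq hA hd hZ hf hLf hL hs hU (a0 + j) n (by omega) (by omega)
      rw [← add_assoc]
      calc (j + 1) * n = j * n + n := by ring
        _ ≤ cnt G f (rec (a0 + j) s) + n := by omega
        _ ≤ _ := this
  have hm : 2 * a0 ≤ m := by
    refine le_trans ?_ hmn
    calc 2 * a0 ≤ 2 * ((s + 1) * d ^ (2 * s) * γ) := by omega
      _ = _ := by ring
  obtain ⟨j, rfl⟩ := Nat.exists_eq_add_of_le (show a0 ≤ m by omega)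
  have h3 : cnt G f (rec (a0 + j) s) ≤ cnt G f (rec (a0 + j) 0) * d ^ s := by
    have := cnt_up' hA hd hf (a0 + j) 0 s
    rwa [zero_add] at this
  have h4 : d ^ s ≤ (s + 1) * d ^ (2 * s) := by
    calc d ^ s ≤ d ^ (2 * s) := Nat.pow_le_pow_right hd1 (by omega)
      _ ≤ (s + 1) * d ^ (2 * s) := Nat.le_mul_of_pos_left _ (by omega)
  calc (a0 + j) * n ≤ 2 * (j * n) := by nlinarith
    _ ≤ 2 * (cnt G f (rec (a0 + j) 0) * d ^ s) := by
        have := (key j).trans h3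
        omega
    _ ≤ 2 * (cnt G f (rec (a0 + j) 0) * ((s + 1) * d ^ (2 * s))) :=
        Nat.mul_le_mul_left _ (Nat.mul_le_mul_left _ h4)
    _ = _ := by ring

theorem swap_rec (a b : ℕ) : {z : ℤ × ℤ | (z.2, z.1) ∈ rec a b} = rec b a := by
  ext z
  simp only [Set.mem_ofPred_eq, mem_rec]
  tauto

theorem base2 (hA : Act G Γ) {d : ℕ} (hd : Deg Γ d)
    (hZ : ¬ ∃ φ : Multiplicative (ℤ × ℤ) →* G, Injective φ)
    {f : ℤ × ℤ → V} (hf : IsFlat Γ f) :
    ∃ C : ℕ, 0 < C ∧ ∀ m n : ℕ,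
      (C * cnt G f (rec 0 n) ≤ m → m * n ≤ C * cnt G f (rec m 0)) ∧
      (C * cnt G f (rec n 0) ≤ m → m * n ≤ C * cnt G f (rec 0 m)) := by
  obtain ⟨C, hC, h⟩ := base hA hd hZ hf
  obtain ⟨C', _, h'⟩ := base hA hd hZ hf.swap
  refine ⟨C + C', by omega, fun m n => ⟨fun h1 => ?_, fun h1 => ?_⟩⟩
  · have := h m n (by nlinarith)
    nlinarith
  · have h2 := h' m n
    rw [cnt_swap, cnt_swap, swap_rec, swap_rec] at h2
    have := h2 (by nlinarith)
    nlinarith

theorem cnt_exp (hA : Act G Γ) {d : ℕ} (hd : Deg Γ d) : ∃ k : ℕ, 0 < k ∧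
    ∀ f : ℤ × ℤ → V, IsFlat Γ f → ∀ n : ℕ, cnt G f (rec 0 n) ≤ k * d ^ n ∧
      cnt G f (rec n 0) ≤ k * d ^ n := by
  obtain ⟨K, hK, hGK⟩ := hA.orb
  refine ⟨K.ncard + 1, by omega, fun f hf n => ⟨?_, ?_⟩⟩
  · have h1 := cnt_up' hA hd hf 0 0 n
    rw [zero_add] at h1
    refine h1.trans (Nat.mul_le_mul_right _ ?_)
    exact (cnt_zero hA hK hGK f).2.trans (Nat.le_succ _)
  · have h1 := cnt_right' hA hd hf 0 0 n
    rw [zero_add] at h1
    refine h1.trans (Nat.mul_le_mul_right _ ?_)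
    exact (cnt_zero hA hK hGK f).2.trans (Nat.le_succ _)

/-! ## Analysis -/

theorem logbound (ρ γ : ℕ → ℕ) (C k D : ℕ) (hC : 0 < C) (hk : 0 < k) (hD : 2 ≤ D)
    (h1 : ∀ m n, C * γ n ≤ m → m * n ≤ C * ρ m) (hγ : ∀ n, γ n ≤ k * D ^ n)
    (hρ : ∀ m, 1 ≤ ρ m) : ∃ c : ℝ, 0 < c ∧ ∀ m : ℕ, c * m * Real.log m ≤ ρ m := by
  have hCk : (1 : ℝ) ≤ (C * k : ℕ) := by exact_mod_cast Nat.mul_pos hC hk
  have hDr : (2 : ℝ) ≤ D := by exact_mod_cast hD
  have hlD : 0 < Real.log D := Real.log_pos (by linarith)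
  have hlC : 0 ≤ Real.log (C * k : ℕ) := Real.log_nonneg hCk
  set B : ℝ := Real.log (C * k : ℕ) + Real.log D with hB
  have hB0 : 0 < B := by positivity
  set M : ℝ := ((C * k * D : ℕ) : ℝ) with hM
  have hM1 : 1 ≤ M := by
    rw [hM]; exact_mod_cast Nat.mul_pos (Nat.mul_pos hC hk) (by omega : 0 < D)
  have hlM : 0 ≤ Real.log M := Real.log_nonneg hM1
  set E : ℝ := 2 * B * C + M * Real.log M + 1 with hE
  have hCr : (0 : ℝ) < C := by exact_mod_cast hC
  have hE0 : 0 < E := by positivity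
  have hMl : 0 ≤ M * Real.log M := by positivity
  refine ⟨1 / E, by positivity, fun m => ?_⟩
  rw [mul_assoc, div_mul_eq_mul_div, one_mul, div_le_iff₀ hE0]
  have hρm : (1 : ℝ) ≤ ρ m := by exact_mod_cast hρ m
  rcases Nat.eq_zero_or_pos m with rfl | hm
  · simp; positivity
  have hmr : (1 : ℝ) ≤ m := by exact_mod_cast hm
  have hlm : 0 ≤ Real.log m := Real.log_nonneg hmr
  set n := Nat.log D (m / (C * k)) with hn
  rcases Nat.eq_zero_or_pos n with h0 | h0
  · -- small `m`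
    have h2 : m / (C * k) < D := by
      by_contra hcon
      push Not at hcon
      have : 0 < Nat.log D (m / (C * k)) := Nat.log_pos (by omega) hcon
      omega
    have h3 : m < C * k * D := by
      rw [Nat.div_lt_iff_lt_mul (Nat.mul_pos hC hk)] at h2
      rwa [mul_comm D] at h2
    have h4 : (m : ℝ) ≤ M := by rw [hM]; exact_mod_cast h3.le
    have h5 : Real.log m ≤ Real.log M := Real.log_le_log (by linarith) h4
    have h6 : (m : ℝ) * Real.log m ≤ M * Real.log M := by gcongr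
    have h7 : M * Real.log M ≤ E := by rw [hE]; nlinarith [mul_pos (mul_pos two_pos hB0) hCr]
    nlinarith
  · have h2 : D ^ n ≤ m / (C * k) := Nat.pow_log_le_self D (by
      intro h
      rw [h, Nat.log_zero_right] at hn
      omega)
    have h3 : C * k * D ^ n ≤ m := by
      have := Nat.mul_le_of_le_div _ _ _ h2
      rwa [mul_comm] at this
    have h4 : m * n ≤ C * ρ m := h1 m n (by
      calc C * γ n ≤ C * (k * D ^ n) := Nat.mul_le_mul_left _ (hγ n)
        _ = C * k * D ^ n := by ring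
        _ ≤ m := h3)
    have h5 : m / (C * k) < D ^ (n + 1) := Nat.lt_pow_succ_log_self (by omega) _
    have h6 : m < C * k * D ^ (n + 1) := by
      rw [Nat.div_lt_iff_lt_mul (Nat.mul_pos hC hk)] at h5
      rwa [mul_comm (D ^ (n + 1))] at h5
    have h7 : (m : ℝ) ≤ (C * k : ℕ) * (D : ℝ) ^ (n + 1) := by exact_mod_cast h6.le
    have h8 : Real.log m ≤ Real.log (C * k : ℕ) + (n + 1) * Real.log D := by
      calc Real.log m ≤ Real.log ((C * k : ℕ) * (D : ℝ) ^ (n + 1)) :=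
            Real.log_le_log (by linarith) h7
        _ = _ := by
            rw [Real.log_mul (by linarith) (by positivity), Real.log_pow]
            push_cast
            ring
    have hnr : (1 : ℝ) ≤ n := by exact_mod_cast h0
    have h9 : Real.log m ≤ 2 * n * B := by
      rw [hB]
      nlinarith
    have h10 : (m : ℝ) * n ≤ C * ρ m := by exact_mod_cast h4
    calc (m : ℝ) * Real.log m ≤ m * (2 * n * B) := by gcongr
      _ = 2 * B * (m * n) := by ring
      _ ≤ 2 * B * (C * ρ m) := by gcongr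
      _ = ρ m * (2 * B * C) := by ring
      _ ≤ ρ m * E := by
        apply mul_le_mul_of_nonneg_left _ (by linarith)
        rw [hE]; linarith

theorem one_le_exp (ρ : ℕ → ℕ) (c A s : ℝ) (hc : 0 < c) (h : ∀ m : ℕ, c * m * Real.log m ≤ ρ m)
    (h2 : ∀ n : ℕ, 1 ≤ n → (ρ n : ℝ) ≤ A * (n : ℝ) ^ s) : 1 ≤ s := by
  by_contra hs
  push Not at hs
  have h3 : Tendsto (fun n : ℕ => Real.log n) atTop atTop :=
    Real.tendsto_log_atTop.comp tendsto_natCast_atTop_atTop
  obtain ⟨n, hn1, hn2⟩ := ((h3.eventually_gt_atTop (|A| / c)).and (eventually_ge_atTop 1)).exists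
  have hnr : (1 : ℝ) ≤ n := by exact_mod_cast hn2
  have h4 := (h n).trans (h2 n hn2)
  have h5 : (n : ℝ) ^ s ≤ n := by
    calc (n : ℝ) ^ s ≤ (n : ℝ) ^ (1 : ℝ) := Real.rpow_le_rpow_of_exponent_le hnr hs.le
      _ = n := Real.rpow_one _
  have h6 : A * (n : ℝ) ^ s ≤ |A| * n := by
    have : 0 ≤ (n : ℝ) ^ s := by positivity
    calc A * (n : ℝ) ^ s ≤ |A| * (n : ℝ) ^ s := by gcongr; exact le_abs_self A
      _ ≤ |A| * n := by gcongr
  rw [div_lt_iff₀ hc] at hn1
  nlinarith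

theorem expbound (ρ γ : ℕ → ℕ) (C : ℕ) (hC : 0 < C) (h1 : ∀ m n, C * γ n ≤ m → m * n ≤ C * ρ m)
    (hγ1 : ∀ m, 1 ≤ γ m) (A s t : ℝ) (hs : 1 ≤ s) (ht : 1 ≤ t)
    (h2 : ∀ n : ℕ, 1 ≤ n → (ρ n : ℝ) ≤ A * (n : ℝ) ^ s)
    (h3 : ∀ n : ℕ, 1 ≤ n → (γ n : ℝ) ≤ A * (n : ℝ) ^ t) : 1 + 1 / t ≤ s := by
  by_contra hcon
  push Not at hcon
  have ht0 : 0 < t := by linarith
  have hA : 1 ≤ A := by
    have h4 := h3 1 le_rfl
    have h5 : (1 : ℝ) ≤ γ 1 := by exact_mod_cast hγ1 1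
    simp at h4
    linarith
  have hCr : (1 : ℝ) ≤ C := by exact_mod_cast hC
  have he : 0 < 1 - t * (s - 1) := by
    have : t * (s - 1) < t * (1 / t) := mul_lt_mul_of_pos_left (by linarith) ht0
    rw [mul_one_div_cancel ht0.ne'] at this
    linarith
  set E : ℝ := C * A + 1 with hE
  have hE0 : 0 < E := by positivity
  have key : ∀ n : ℕ, 1 ≤ n → (n : ℝ) ^ (1 - t * (s - 1)) ≤ C * A * E ^ (s - 1) := by
    intro n hn
    have hnr : (1 : ℝ) ≤ n := by exact_mod_cast hn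
    have hn0 : (0 : ℝ) < n := by linarith
    have hnt : 1 ≤ (n : ℝ) ^ t := Real.one_le_rpow hnr ht0.le
    set m := ⌈(C : ℝ) * A * (n : ℝ) ^ t⌉₊ with hm
    have h4 : (C : ℝ) * A * (n : ℝ) ^ t ≤ m := Nat.le_ceil _
    have h5 : (m : ℝ) ≤ E * (n : ℝ) ^ t := by
      have := (Nat.ceil_lt_add_one (show 0 ≤ (C : ℝ) * A * (n : ℝ) ^ t by positivity)).le
      rw [← hm] at this
      rw [hE]
      linarith
    have h6 : C * γ n ≤ m := by
      have : ((C * γ n : ℕ) : ℝ) ≤ m := by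
        push_cast
        calc (C : ℝ) * γ n ≤ C * (A * (n : ℝ) ^ t) := by
              have := h3 n hn
              gcongr
          _ = C * A * (n : ℝ) ^ t := by ring
          _ ≤ m := h4
      exact_mod_cast this
    have h7 := h1 m n h6
    have hm1 : (1 : ℝ) ≤ m := by
      have h11 : (1 : ℝ) ≤ C * A := by nlinarith
      have : 1 ≤ (C : ℝ) * A * (n : ℝ) ^ t := by nlinarith
      linarith
    have hm1' : 1 ≤ m := by exact_mod_cast hm1
    have hm0 : (0 : ℝ) < m := by linarith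
    have h8 : (m : ℝ) * n ≤ C * (A * (m : ℝ) ^ s) := by
      have h9 : (m : ℝ) * n ≤ C * ρ m := by exact_mod_cast h7
      have h10 := h2 m hm1'
      calc (m : ℝ) * n ≤ C * ρ m := h9
        _ ≤ C * (A * (m : ℝ) ^ s) := by gcongr
    have h9 : (m : ℝ) ^ s = m * (m : ℝ) ^ (s - 1) := by
      rw [Real.rpow_sub_one hm0.ne']
      field_simp
    have h10 : (n : ℝ) ≤ C * A * (m : ℝ) ^ (s - 1) := by
      rw [h9] at h8
      have : (m : ℝ) * n ≤ m * (C * A * (m : ℝ) ^ (s - 1)) := by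
        calc (m : ℝ) * n ≤ _ := h8
          _ = _ := by ring
      exact le_of_mul_le_mul_left this hm0
    have h11 : (m : ℝ) ^ (s - 1) ≤ E ^ (s - 1) * (n : ℝ) ^ (t * (s - 1)) := by
      calc (m : ℝ) ^ (s - 1) ≤ (E * (n : ℝ) ^ t) ^ (s - 1) :=
            Real.rpow_le_rpow hm0.le h5 (by linarith)
        _ = _ := by rw [Real.mul_rpow hE0.le (by positivity), ← Real.rpow_mul hn0.le]
    have h12 : (n : ℝ) ≤ C * A * E ^ (s - 1) * (n : ℝ) ^ (t * (s - 1)) := by
      calc (n : ℝ) ≤ C * A * (m : ℝ) ^ (s - 1) := h10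
        _ ≤ C * A * (E ^ (s - 1) * (n : ℝ) ^ (t * (s - 1))) := by gcongr
        _ = _ := by ring
    rw [Real.rpow_sub hn0, Real.rpow_one, div_le_iff₀ (by positivity)]
    exact h12
  have hlim : Tendsto (fun n : ℕ => (n : ℝ) ^ (1 - t * (s - 1))) atTop atTop :=
    (tendsto_rpow_atTop he).comp tendsto_natCast_atTop_atTop
  obtain ⟨n, hn1, hn2⟩ := ((hlim.eventually_gt_atTop (C * A * E ^ (s - 1))).and
    (eventually_ge_atTop 1)).exists
  exact absurd (key n hn2) (not_le.2 hn1)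

theorem golden (s t : ℝ) (hs : 1 ≤ s) (ht : 1 ≤ t) (h1 : 1 + 1 / t ≤ s) (h2 : 1 + 1 / s ≤ t) :
    (1 + √5) / 2 ≤ max s t := by
  have key : ∀ a b : ℝ, 1 ≤ a → 1 ≤ b → b ≤ a → 1 + 1 / b ≤ a → (1 + √5) / 2 ≤ a := by
    intro a b ha hb hba h
    have ha0 : 0 < a := by linarith
    have hb0 : 0 < b := by linarith
    have h3 : 1 / a ≤ 1 / b := one_div_le_one_div_of_le hb0 hba
    have h4 : 1 + 1 / a ≤ a := by linarith
    have h5 : a + 1 ≤ a * a := by
      have := mul_le_mul_of_nonneg_left h4 ha0.le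
      rw [mul_add, mul_one, mul_one_div_cancel ha0.ne'] at this
      exact this
    have h6 : √5 ≤ 2 * a - 1 := by
      rw [Real.sqrt_le_left (by linarith)]
      nlinarith
    linarith
  rcases le_total t s with h | h
  · exact (key s t hs ht h h1).trans (le_max_left _ _)
  · exact (key t s ht hs h h2).trans (le_max_right _ _)

/-- the cardinality of a range depends only on the kernel -/
theorem ncard_range_eq {ι A B : Type*} (F : ι → A) (F' : ι → B)
    (h : ∀ b b', F b = F b' ↔ F' b = F' b') : (range F).ncard = (range F').ncard := by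
  classical
  rcases isEmpty_or_nonempty ι with hι | hι
  · rw [Set.range_eq_empty, Set.range_eq_empty, Set.ncard_empty, Set.ncard_empty]
  set φ : A → B := fun c => F' (Function.invFun F c) with hφ
  have e : ∀ b, φ (F b) = F' b := by
    intro b
    rw [hφ]
    exact (h _ _).1 (Function.invFun_eq ⟨b, rfl⟩)
  have h1 : range F' = φ '' range F := by
    ext c
    constructor
    · rintro ⟨b, rfl⟩
      exact ⟨F b, ⟨b, rfl⟩, e b⟩
    · rintro ⟨_, ⟨b, rfl⟩, rfl⟩
      exact ⟨b, (e b).symm⟩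
  rw [h1]
  symm
  apply Set.InjOn.ncard_image
  rintro _ ⟨b, rfl⟩ _ ⟨b', rfl⟩ hb
  rw [e, e] at hb
  exact (h b b').2 hb

end Pool.Agent.V5helper35.WF
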