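import Pool.Agent.V5helper35.WF.Count

/-!
# Minimal families of flats without `ℤ²`: special patterns of rows
-/

set_option autoImplicit false

namespace Pool.Agent.V5helper35.WF

open Function Set Pool.Agent.N47.SQ

variable {V : Type*} {G : Type*} [Group G] [MulAction G V] {Γ : SimpleGraph V}

/-- the elements which fix the window of radius `r` -/
def SS (G : Type*) {V : Type*} [Group G] [MulAction G V] (h : ℤ × ℤ → V) (r : ℕ) : Set G :=
  {g | ∀ z : ℤ × ℤ, z.1.natAbs ≤ r → z.2.natAbs ≤ r → g • h z = h z}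

theorem SS_fin (hA : Act G Γ) (h : ℤ × ℤ → V) (r : ℕ) : (SS G h r).Finite :=
  (hA.stab (h 0)).subset fun g hg => hg 0 (by simp) (by simp)

theorem SS_anti (h : ℤ × ℤ → V) {r r' : ℕ} (hr : r ≤ r') : SS G h r' ⊆ SS G h r :=
  fun _ hg z h1 h2 => hg z (h1.trans hr) (h2.trans hr)

/-- in a minimal family the stabiliser of a large window fixes the whole plane -/
theorem us (hA : Act G Γ) {L : Set (ℤ × ℤ → V)} (hL : IsMin G Γ L) :
    ∃ r : ℕ, ∀ h ∈ L, ∀ g ∈ SS G h r, ∀ z, g • h z = h z := by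
  classical
  have hex : ∃ n : ℕ, ∃ h ∈ L, ∃ r, (SS G h r).ncard = n := by
    obtain ⟨h, hh⟩ := hL.ne
    exact ⟨_, h, hh, 0, rfl⟩
  obtain ⟨h0, hh0, r0, hn0⟩ := Nat.find_spec hex
  have hmin : ∀ h ∈ L, ∀ r, (SS G h0 r0).ncard ≤ (SS G h r).ncard := by
    intro h hh r
    rw [hn0]
    exact Nat.find_min' hex ⟨h, hh, r, rfl⟩
  obtain ⟨n, hn⟩ := hL.recur hA hh0 hh0 r0
  refine ⟨n + r0, fun h hh g hg z => ?_⟩
  obtain ⟨g1, b1, hb1⟩ := hL.min h0 hh0 hh (n + r0)
  obtain ⟨b', hb'1, hb'2, g2, hg2⟩ := hn b1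
  set c : ℤ × ℤ := b' - b1 with hc
  have hc1 : c.1.natAbs ≤ n := hb'1
  have hc2 : c.2.natAbs ≤ n := hb'2
  -- the window around `c` is a copy of the window of `h0`
  have hcopy : ∀ z : ℤ × ℤ, z.1.natAbs ≤ r0 → z.2.natAbs ≤ r0 →
      (g2 * g1⁻¹) • h (z + c) = h0 z := by
    intro z h1 h2
    rw [hb1 (z + c) (by simp only [Prod.fst_add]; omega) (by simp only [Prod.snd_add]; omega),
      mul_smul, inv_smul_smul, ← hg2 z h1 h2, hc]
    congr 2
    abel
  set r' : ℕ := max (n + r0) (z.1.natAbs + z.2.natAbs) with hr'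
  have hsub : SS G h r' ⊆ SS G (fun z => h (z + c)) r0 := by
    intro w hw z h1 h2
    exact hw _ (by simp only [Prod.fst_add]; omega) (by simp only [Prod.snd_add]; omega)
  have hcard : (SS G (fun z => h (z + c)) r0).ncard ≤ (SS G h0 r0).ncard := by
    refine Set.ncard_le_ncard_of_injOn (fun w => (g2 * g1⁻¹) * w * (g2 * g1⁻¹)⁻¹) ?_ ?_
      (SS_fin hA h0 r0)
    · intro w hw z h1 h2
      rw [← hcopy z h1 h2, mul_smul, mul_smul, inv_smul_smul, hw z h1 h2]
    · intro w _ w' _ hww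
      simpa using hww
  have heq : SS G h r' = SS G (fun z => h (z + c)) r0 :=
    Set.eq_of_subset_of_ncard_le hsub (hcard.trans (hmin h hh r')) (SS_fin hA _ _)
  have hg' : g ∈ SS G (fun z => h (z + c)) r0 := by
    intro w h1 h2
    exact hg _ (by simp only [Prod.fst_add]; omega) (by simp only [Prod.snd_add]; omega)
  rw [← heq] at hg'
  exact hg' z (by omega) (by omega)

/-- the same for squares with a corner at the origin -/
def US (G : Type*) {V : Type*} [Group G] [MulAction G V] (L : Set (ℤ × ℤ → V)) (s : ℕ) : Prop :=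
  ∀ h ∈ L, ∀ (g : G) (b : ℤ × ℤ), (∀ z ∈ rec s s, g • h (z + b) = h (z + b)) → ∀ z, g • h z = h z

theorem us' (hA : Act G Γ) {L : Set (ℤ × ℤ → V)} (hL : IsMin G Γ L) : ∃ s : ℕ, 1 ≤ s ∧ US G L s := by
  obtain ⟨r, hr⟩ := us hA hL
  refine ⟨2 * r + 1, by omega, fun h hh g b hg z => ?_⟩
  have := hr _ (hL.sys.mv h hh 1 (b + ((r : ℤ), (r : ℤ)))) g (by
    intro z h1 h2
    have := hg (z + ((r : ℤ), (r : ℤ))) ⟨by simp only [Prod.fst_add]; omega, by
      simp only [Prod.fst_add]; push_cast; omega, by simp only [Prod.snd_add]; omega, by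
      simp only [Prod.snd_add]; push_cast; omega⟩
    simp only [one_smul]
    rw [show z + (b + ((r : ℤ), (r : ℤ))) = z + ((r : ℤ), (r : ℤ)) + b by abel]
    exact this) (z - (b + ((r : ℤ), (r : ℤ))))
  simpa using this

/-- positions of the windows of a limit flat -/
theorem Orb.pos {f h : ℤ × ℤ → V} (hh : h ∈ Orb G f) (a b : ℕ) (β : ℤ × ℤ) :
    ∃ (g : G) (c : ℤ × ℤ), ∀ z ∈ rec a b, h (z + β) = g • f (z + c) := by
  obtain ⟨g, c, hg⟩ := hh (a + b + β.1.natAbs + β.2.natAbs)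
  refine ⟨g, β + c, fun z hz => ?_⟩
  obtain ⟨h1, h2, h3, h4⟩ := hz
  rw [← add_assoc]
  exact hg _ (by simp only [Prod.fst_add]; omega) (by simp only [Prod.snd_add]; omega)

/-- two commuting translations of a strip -/
theorem z2_strip (hA : Act G Γ) {L : Set (ℤ × ℤ → V)} {s : ℕ} (hs : 1 ≤ s)
    (hU : US G L s) {h : ℤ × ℤ → V} (hh : h ∈ L) (hfl : IsFlat Γ h) {x y : ℤ} {σ τ : ℕ}
    (hσ : 0 < σ) (hτ : 0 < τ) {g u : G}
    (hg1 : ∀ z ∈ rec s s, g • h (z + (x, y)) = h (z + (x, y + τ)))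
    (hg2 : ∀ z ∈ rec s s, g • h (z + (x + σ, y)) = h (z + (x + σ, y + τ)))
    (hu1 : ∀ z ∈ rec s s, u • h (z + (x, y)) = h (z + (x + σ, y)))
    (hu2 : ∀ z ∈ rec s s, u • h (z + (x, y + τ)) = h (z + (x + σ, y + τ))) :
    ∃ φ : Multiplicative (ℤ × ℤ) →* G, Injective φ := by
  classical
  set S : Set G := {w | ∀ z, w • h z = h z} with hS
  have hSf : S.Finite := (hA.stab (h 0)).subset fun g hg => hg 0
  have hmul : ∀ v ∈ S, ∀ w ∈ S, v * w ∈ S := by
    intro v hv w hw z
    rw [mul_smul, hw z, hv z]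
  -- `g` normalises `S`
  have hgS : ∀ w ∈ S, g⁻¹ * w * g ∈ S := by
    intro w hw
    refine hU h hh _ (x, y) fun z hz => ?_
    rw [mul_smul, mul_smul, hg1 z hz, hw, ← hg1 z hz, inv_smul_smul]
  -- the conjugate of `g`
  set a : G := u * g * u⁻¹ with ha
  have hw0 : g⁻¹ * a ∈ S := by
    refine hU h hh _ (x + σ, y) fun z hz => ?_
    rw [ha, mul_smul, mul_smul, mul_smul, ← hu1 z hz, inv_smul_smul, hg1 z hz, hu2 z hz,
      ← hg2 z hz, inv_smul_smul, hu1 z hz]
  have hmem : ∀ n : ℕ, (g ^ n)⁻¹ * a ^ n ∈ S := by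
    intro n
    induction n with
    | zero => intro z; simp
    | succ n ih =>
      have e : (g ^ (n + 1))⁻¹ * a ^ (n + 1) =
          (g⁻¹ * ((g ^ n)⁻¹ * a ^ n) * g) * (g⁻¹ * a) := by
        rw [pow_succ, pow_succ, mul_inv_rev]
        group
      rw [e]
      exact hmul _ (hgS _ ih) _ hw0
  obtain ⟨n, -, m, -, hne, heq⟩ := Set.infinite_univ.exists_ne_map_eq_of_mapsTo
    (f := fun n : ℕ => (g ^ n)⁻¹ * a ^ n) (fun n _ => hmem n) hSf
  obtain ⟨k, hk, hkk⟩ : ∃ k : ℕ, 0 < k ∧ a ^ k = g ^ k := by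
    wlog hlt : n < m generalizing n m
    · exact this m n hne.symm heq.symm (by omega)
    obtain ⟨d, rfl⟩ := Nat.exists_eq_add_of_lt hlt
    refine ⟨d + 1, by omega, ?_⟩
    have e : (g ^ n)⁻¹ * a ^ n = (g ^ n)⁻¹ * ((g ^ (d + 1))⁻¹ * a ^ (d + 1)) * a ^ n := by
      have h := heq
      rw [show n + d + 1 = (d + 1) + n by ring, pow_add g, pow_add a, mul_inv_rev] at h
      rw [h]
      simp only [mul_assoc]
    have e2 : (g ^ (d + 1))⁻¹ * a ^ (d + 1) = 1 := by
      have h := mul_right_cancel e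
      exact (mul_eq_left.1 h.symm)
    exact (inv_mul_eq_one.1 e2).symm
  have hcomm : Commute u (g ^ k) := by
    rw [ha, conj_pow] at hkk
    exact mul_inv_eq_iff_eq_mul.1 hkk
  have m00 : ((0, 0) : ℤ × ℤ) ∈ rec s s := ⟨by simp, by simp, by simp, by simp⟩
  have m10 : ((1, 0) : ℤ × ℤ) ∈ rec s s := ⟨by simp, by simp; omega, by simp, by simp⟩
  have m01 : ((0, 1) : ℤ × ℤ) ∈ rec s s := ⟨by simp, by simp, by simp, by simp; omega⟩
  have g00 : g • h (x, y) = h (x, y + τ) := by simpa using hg1 _ m00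
  have g10 : g • h (x + 1, y) = h (x + 1, y + τ) := by
    have := hg1 _ m10
    simp only [Prod.mk_add_mk, zero_add] at this
    rwa [add_comm 1 x] at this
  have g01 : g • h (x, y + 1) = h (x, y + τ + 1) := by
    have := hg1 _ m01
    simp only [Prod.mk_add_mk, zero_add] at this
    rwa [add_comm 1 y, add_comm 1 (y + (τ : ℤ))] at this
  have u00 : u • h (x, y) = h (x + σ, y) := by simpa using hu1 _ m00
  have u10 : u • h (x + 1, y) = h (x + σ + 1, y) := by
    have := hu1 _ m10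
    simp only [Prod.mk_add_mk, zero_add] at this
    rwa [add_comm 1 x, add_comm 1 (x + (σ : ℤ))] at this
  set W : Set V := {v | Γ.dist v (h (x + 1, y)) < Γ.dist v (h (x, y))} with hW
  have hWg : ∀ v, v ∈ W ↔ g • v ∈ W := by
    intro v
    simp only [hW, Set.mem_ofPred_eq]
    constructor
    · intro h1
      have h2 : Γ.dist (g • v) (h (x + 1, y + τ)) < Γ.dist (g • v) (h (x, y + τ)) := by
        rw [← g00, ← g10, hA.dist, hA.dist]
        exact h1
      exact par hA.med hfl y h2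
    · intro h1
      have h2 := par hA.med hfl (y + τ) h1
      rw [← g00, ← g10, hA.dist, hA.dist] at h2
      exact h2
  have hWgk : ∀ (n : ℕ) (v : V), v ∈ W ↔ g ^ n • v ∈ W := by
    intro n
    induction n with
    | zero => intro v; simp
    | succ n ih => intro v; rw [pow_succ, mul_smul, ← ih, ← hWg]
  refine z2_of hcomm W ?_ (p := h (x + σ, y)) ?_ ?_ (hWgk k) ?_
  · intro v hv
    simp only [hW, Set.mem_ofPred_eq] at hv ⊢
    have h1 : Γ.dist (u • v) (h (x + σ + 1, y)) < Γ.dist (u • v) (h (x + σ, y)) := by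
      rw [← u00, ← u10, hA.dist, hA.dist]
      exact hv
    exact nested hA.med hA.n3 hfl _ x y σ hσ h1
  · simp only [hW, Set.mem_ofPred_eq]
    obtain ⟨l, rfl⟩ := Nat.exists_eq_add_of_lt hσ
    rw [hfl.dist_eq (n := l) (by push_cast; simp only [Int.abs_eq_natAbs]; omega),
      hfl.dist_eq (n := l + 1) (by push_cast; simp only [Int.abs_eq_natAbs]; omega)]
    omega
  · rw [← u00, inv_smul_smul]
    simp only [hW, Set.mem_ofPred_eq]
    rw [SimpleGraph.dist_self]
    omega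
  · -- `g` has infinite order
    intro n hn h1
    set W' : Set V := {v | Γ.dist v (h (x, y + 1)) < Γ.dist v (h (x, y))} with hW'
    have hW'g : ∀ v ∈ W', g • v ∈ W' := by
      intro v hv
      simp only [hW', Set.mem_ofPred_eq] at hv ⊢
      have h1 : Γ.dist (g • v) (h (x, y + τ + 1)) < Γ.dist (g • v) (h (x, y + τ)) := by
        rw [← g00, ← g01, hA.dist, hA.dist]
        exact hv
      exact nested hA.med hA.n3 hfl.swap _ y x τ hτ h1
    have hpow : ∀ (m : ℕ) (v : V), v ∈ W' → g ^ m • v ∈ W' := by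
      intro m
      induction m with
      | zero => intro v hv; simpa using hv
      | succ m ih => intro v hv; rw [pow_succ, mul_smul]; exact ih _ (hW'g v hv)
    have hp' : h (x, y + τ) ∈ W' := by
      simp only [hW', Set.mem_ofPred_eq]
      obtain ⟨l, rfl⟩ := Nat.exists_eq_add_of_lt hτ
      rw [hfl.dist_eq (n := l) (by push_cast; simp only [Int.abs_eq_natAbs]; omega),
        hfl.dist_eq (n := l + 1) (by push_cast; simp only [Int.abs_eq_natAbs]; omega)]
      omega
    have hkn : 0 < k * n := Nat.mul_pos hk hn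
    obtain ⟨q, hq⟩ := Nat.exists_eq_add_of_lt hkn
    have h3 : g ^ (q + 1) = 1 := by
      rw [← pow_mul] at h1
      rw [← h1, hq]
      congr 1
      omega
    have h4 : g⁻¹ = g ^ q := by
      rw [inv_eq_iff_mul_eq_one, ← pow_succ']; exact h3
    have h5 : g⁻¹ • h (x, y + τ) ∈ W' := by
      rw [h4]; exact hpow q _ hp'
    rw [← g00, inv_smul_smul] at h5
    simp only [hW', Set.mem_ofPred_eq] at h5
    rw [SimpleGraph.dist_self] at h5
    omega

/-- the main inequality -/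
theorem main_ineq (hA : Act G Γ) {d : ℕ} (hd : Deg Γ d)
    (hZ : ¬ ∃ φ : Multiplicative (ℤ × ℤ) →* G, Injective φ)
    {f : ℤ × ℤ → V} (hf : IsFlat Γ f) {L : Set (ℤ × ℤ → V)} (hLf : L ⊆ Orb G f)
    (hL : IsMin G Γ L) {s : ℕ} (hs : 1 ≤ s) (hU : US G L s) (a n : ℕ) (ha : s ≤ a)
    (hcol : s + cnt G f (rec s (n + s)) ≤ a) :
    cnt G f (rec a s) + n ≤ cnt G f (rec (a + 1) s) := by
  classical
  by_contra hcon
  push Not at hcon
  apply hZ
  obtain ⟨h, hh, k, hk, a0, b0, c0, d0, hab, hcd, hE⟩ := exists_rect hA hL hZ (R := a + n + s + 1)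
    (by omega)
  push_cast at hab hcd
  -- positions in `f`
  choose gh ph hph using fun i : ℕ => Orb.pos (hLf hh) (a + 1) s (b0 - a, c0 + i)
  choose gk pk hpk using fun i : ℕ => Orb.pos (hLf hk) (a + 1) s (b0 - a, c0 + i)
  have hsub : rec a s ⊆ rec (a + 1) s := fun z hz => ⟨hz.1, by
    have := hz.2.1; push_cast; omega, hz.2.2.1, hz.2.2.2⟩
  have hag : ∀ i : ℕ, i < n → ∀ z ∈ rec a s,
      h (z + (b0 - a, c0 + i)) = k (z + (b0 - a, c0 + i)) := by
    intro i hi z hz
    obtain ⟨h1, h2, h3, h4⟩ := hz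
    exact hE.ag _ _ (by simp only; omega) (by simp only; omega) (by simp only; omega)
      (by simp only; omega)
  set Sp : Set (Set (ℤ × ℤ)) := {c | ∃ b b', cls G f (rec a s) b = c ∧ cls G f (rec a s) b' = c ∧
    ¬ Same G f (rec (a + 1) s) b b'} with hSp
  have hFin := fin_rec hA hd hf (a + 1) s
  have hspec : cnt G f (rec a s) + Sp.ncard ≤ cnt G f (rec (a + 1) s) :=
    special hFin (D := rec a s) fun b b' hb => hb.mono hsub
  have hSpf : Sp.Finite := by
    refine (fin_rec hA hd hf a s).subset ?_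
    rintro c ⟨b, _, h1, _, _⟩
    exact ⟨b, h1⟩
  have hmem : ∀ i ∈ Finset.range n, cls G f (rec a s) (ph i) ∈ hSpf.toFinset := by
    intro i hi
    have hi' : i < n := Finset.mem_range.1 hi
    rw [Set.Finite.mem_toFinset]
    refine ⟨ph i, pk i, rfl, ?_, ?_⟩
    · rw [cls_eq_iff]
      refine ⟨(gh i)⁻¹ * gk i, fun z hz => ?_⟩
      rw [mul_smul, inv_smul_eq_iff, ← hpk i z (hsub hz), ← hph i z (hsub hz), hag i hi' z hz]
    · rintro ⟨w, hw⟩
      have hw2 : ∀ z ∈ rec (a + 1) s, (gk i * w * (gh i)⁻¹) • h (z + (b0 - a, c0 + i)) =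
          k (z + (b0 - a, c0 + i)) := by
        intro z hz
        rw [hph i z hz, mul_smul, mul_smul, inv_smul_smul, hw z hz, hpk i z hz]
      have hw3 := hU h hh _ (b0 - a, c0 + i) (fun z hz => by
        have hz' : z ∈ rec a s := ⟨hz.1, by have := hz.2.1; omega, hz.2.2.1, hz.2.2.2⟩
        rw [hw2 z (hsub hz'), hag i hi' z hz'])
      have h1 := hw2 ((a : ℤ) + 1, 0) ⟨by simp only; omega, by simp only; push_cast; omega,
        by simp only; omega, by simp only; omega⟩
      rw [hw3] at h1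
      refine hE.rt (c0 + i) (by omega) (by omega) ?_
      simp only [Prod.mk_add_mk, zero_add] at h1
      rwa [show (a : ℤ) + 1 + (b0 - a) = b0 + 1 by ring] at h1
  have hcardSp : hSpf.toFinset.card < (Finset.range n).card := by
    rw [Finset.card_range, ← Set.ncard_eq_toFinset_card _ hSpf]
    omega
  obtain ⟨i, hi, j, hj, hij, hcls⟩ := Finset.exists_ne_map_eq_of_card_lt_of_maps_to hcardSp hmem
  obtain ⟨i, j, hij, hj, hcls⟩ : ∃ i j : ℕ, i < j ∧ j < n ∧
      cls G f (rec a s) (ph i) = cls G f (rec a s) (ph j) := by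
    rcases Nat.lt_or_gt_of_ne hij with h1 | h1
    · exact ⟨i, j, h1, Finset.mem_range.1 hj, hcls⟩
    · exact ⟨j, i, h1, Finset.mem_range.1 hi, hcls.symm⟩
  obtain ⟨w, hw⟩ := cls_eq_iff.1 hcls
  -- the vertical translation
  set g : G := gh j * w * (gh i)⁻¹ with hg
  have hgh : ∀ z ∈ rec a s, g • h (z + (b0 - a, c0 + i)) = h (z + (b0 - a, c0 + j)) := by
    intro z hz
    rw [hg, mul_smul, mul_smul, hph i z (hsub hz), inv_smul_smul, hw z hz, hph j z (hsub hz)]
  -- columns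
  choose gc pc hpc using fun l : ℕ => Orb.pos (hLf hh) s (n + s) (b0 - a + l, c0 + i)
  have hFc := fin_rec hA hd hf s (n + s)
  have hcardc : hFc.toFinset.card < (Finset.range (a - s + 1)).card := by
    rw [Finset.card_range, ← Set.ncard_eq_toFinset_card _ hFc]
    change cnt G f (rec s (n + s)) < _
    omega
  obtain ⟨l, hl, l', hl', hll, hcls2⟩ := Finset.exists_ne_map_eq_of_card_lt_of_maps_to hcardc
    (f := fun l => cls G f (rec s (n + s)) (pc l)) (fun l _ => by
      rw [Finset.mem_coe]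
      exact (Set.Finite.mem_toFinset (hs := hFc)).2 ⟨_, rfl⟩)
  obtain ⟨l, l', hll, hl', hcls2⟩ : ∃ l l' : ℕ, l < l' ∧ l' < a - s + 1 ∧
      cls G f (rec s (n + s)) (pc l) = cls G f (rec s (n + s)) (pc l') := by
    rcases Nat.lt_or_gt_of_ne hll with h1 | h1
    · exact ⟨l, l', h1, Finset.mem_range.1 hl', hcls2⟩
    · exact ⟨l', l, h1, Finset.mem_range.1 hl, hcls2.symm⟩
  obtain ⟨w', hw'⟩ := cls_eq_iff.1 hcls2
  set u : G := gc l' * w' * (gc l)⁻¹ with hu
  have huh : ∀ z ∈ rec s (n + s), u • h (z + (b0 - a + l, c0 + i)) =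
      h (z + (b0 - a + l', c0 + i)) := by
    intro z hz
    rw [hu, mul_smul, mul_smul, hpc l z hz, inv_smul_smul, hw' z hz, hpc l' z hz]
  refine z2_strip hA hs hU hh (hL.sys.flat h hh) (x := b0 - a + l) (y := c0 + i) (σ := l' - l)
    (τ := j - i) (by omega) (by omega) (g := g) (u := u) ?_ ?_ ?_ ?_
  · intro z hz
    have := hgh (z + ((l : ℤ), 0)) ⟨by have := hz.1; simp only [Prod.fst_add]; omega, by
      have := hz.2.1; simp only [Prod.fst_add]; omega, by
      have := hz.2.2.1; simp only [Prod.snd_add]; omega, by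
      have := hz.2.2.2; simp only [Prod.snd_add]; omega⟩
    rw [show z + ((l : ℤ), 0) + (b0 - a, c0 + i) = z + (b0 - a + l, c0 + i) by
      ext <;> simp <;> ring, show z + ((l : ℤ), 0) + (b0 - a, c0 + (j : ℤ)) =
        z + (b0 - a + l, c0 + i + (j - i : ℕ)) by
      ext <;> simp <;> omega] at this
    exact this
  · intro z hz
    have := hgh (z + ((l' : ℤ), 0)) ⟨by have := hz.1; simp only [Prod.fst_add]; omega, by
      have := hz.2.1; simp only [Prod.fst_add]; omega, by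
      have := hz.2.2.1; simp only [Prod.snd_add]; omega, by
      have := hz.2.2.2; simp only [Prod.snd_add]; omega⟩
    rw [show z + ((l' : ℤ), 0) + (b0 - a, c0 + i) = z + (b0 - a + l + (l' - l : ℕ), c0 + i) by
      ext <;> simp <;> omega, show z + ((l' : ℤ), 0) + (b0 - a, c0 + (j : ℤ)) =
        z + (b0 - a + l + (l' - l : ℕ), c0 + i + (j - i : ℕ)) by
      ext <;> simp <;> omega] at this
    exact this
  · intro z hz
    have := huh z ⟨hz.1, hz.2.1, hz.2.2.1, by have := hz.2.2.2; push_cast; omega⟩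
    rw [show z + (b0 - a + (l' : ℤ), c0 + (i : ℤ)) = z + (b0 - a + l + (l' - l : ℕ), c0 + i) by
      ext <;> simp <;> omega] at this
    exact this
  · intro z hz
    have := huh (z + (0, ((j - i : ℕ) : ℤ))) ⟨by have := hz.1; simp only [Prod.fst_add]; omega, by
      have := hz.2.1; simp only [Prod.fst_add]; omega, by
      have := hz.2.2.1; simp only [Prod.snd_add]; omega, by
      have := hz.2.2.2; simp only [Prod.snd_add]; push_cast; omega⟩
    rw [show z + (0, ((j - i : ℕ) : ℤ)) + (b0 - a + (l : ℤ), c0 + (i : ℤ)) =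
        z + (b0 - a + l, c0 + i + (j - i : ℕ)) by
      ext <;> simp <;> omega, show z + (0, ((j - i : ℕ) : ℤ)) + (b0 - a + (l' : ℤ), c0 + (i : ℤ)) =
        z + (b0 - a + l + (l' - l : ℕ), c0 + i + (j - i : ℕ)) by
      ext <;> simp <;> omega] at this
    exact this

end Pool.Agent.V5helper35.WF
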