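import Pool.Agent.V5helper35.WF.Chain

/-!
# Unique first return words give `ℤ²`
-/

set_option autoImplicit false

namespace Pool.Agent.V5helper35.WF

open Function Set Pool.Agent.N47.SQ

/-- sequences whose first return words are unique are eventually periodic -/
theorem evper {α ι : Type*} [Finite α] (a : ι → ℕ → α)
    (hU : ∀ y y' i j i' j', i < j → i' < j' → a y j = a y i → a y' i' = a y i → a y' j' = a y i →
      (∀ t, i < t → t < j → a y t ≠ a y i) → (∀ t, i' < t → t < j' → a y' t ≠ a y i) →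
      j - i = j' - i' ∧ ∀ t, t ≤ j - i → a y (i + t) = a y' (i' + t)) :
    ∃ P : ℕ, 0 < P ∧ ∀ y, ∃ X : ℕ, ∀ x, X ≤ x → a y (x + P) = a y x := by
  classical
  have _ := Fintype.ofFinite α
  -- the length of the return word
  have hl : ∀ q : α, ∃ l : ℕ, 0 < l ∧ ∀ y i j, i < j → a y i = q → a y j = q →
      (∀ t, i < t → t < j → a y t ≠ q) → j - i = l := by
    intro q
    by_cases h : ∃ y i j, i < j ∧ a y i = q ∧ a y j = q ∧ ∀ t, i < t → t < j → a y t ≠ q
    · obtain ⟨y, i, j, h1, h2, h3, h4⟩ := h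
      refine ⟨j - i, by omega, fun y' i' j' h1' h2' h3' h4' => ?_⟩
      have := hU y y' i j i' j' h1 h1' (by rw [h3, h2]) (by rw [h2', h2]) (by rw [h3', h2])
        (by rw [h2]; exact h4) (by rw [h2]; exact h4')
      exact this.1.symm
    · refine ⟨1, one_pos, fun y i j h1 h2 h3 h4 => ?_⟩
      exact absurd ⟨y, i, j, h1, h2, h3, h4⟩ h
  choose l hl0 hl using hl
  refine ⟨∏ q, l q, Finset.prod_pos fun q _ => hl0 q, fun y => ?_⟩
  obtain ⟨q, hq⟩ := Finite.exists_infinite_fiber (a y)
  have hinf : (a y ⁻¹' {q}).Infinite := Set.infinite_coe_iff.1 hq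
  obtain ⟨i0, hi0, -⟩ := hinf.exists_gt 0
  -- the next occurrence
  have next : ∀ i, a y i = q → a y (i + l q) = q ∧ (∀ t, i < t → t < i + l q → a y t ≠ q) := by
    intro i hi
    have hex : ∃ j, i < j ∧ a y j = q := by
      obtain ⟨j, hj, hij⟩ := hinf.exists_gt i
      exact ⟨j, hij, hj⟩
    obtain ⟨h1, h2⟩ := Nat.find_spec hex
    have h3 : ∀ t, i < t → t < Nat.find hex → a y t ≠ q := fun t h4 h5 h6 =>
      Nat.find_min hex h5 ⟨h4, h6⟩
    have h4 := hl q y i (Nat.find hex) h1 hi h2 h3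
    have h5 : Nat.find hex = i + l q := by omega
    rw [h5] at h2 h3
    exact ⟨h2, h3⟩
  have hi0' : a y i0 = q := hi0
  have occ : ∀ n : ℕ, a y (i0 + n * l q) = q := by
    intro n
    induction n with
    | zero => simpa using hi0'
    | succ n ih =>
      have := (next _ ih).1
      rwa [show i0 + (n + 1) * l q = i0 + n * l q + l q by ring]
  have words : ∀ (n t : ℕ), t ≤ l q → a y (i0 + n * l q + t) = a y (i0 + t) := by
    intro n t ht
    have h1 := next _ (occ n)
    have h0 := next _ hi0'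
    have h2 := (hU y y (i0 + n * l q) (i0 + n * l q + l q) i0 (i0 + l q) (by have := hl0 q; omega)
      (by have := hl0 q; omega) (by rw [h1.1, occ n]) (by rw [occ n, hi0']) (by rw [h0.1, occ n])
      (by rw [occ n]; exact h1.2) (by rw [occ n]; exact h0.2)).2 t (by omega)
    exact h2
  have per : ∀ x, i0 ≤ x → a y (x + l q) = a y x := by
    intro x hx
    obtain ⟨r, rfl⟩ := Nat.exists_eq_add_of_le hx
    have h1 := words (r / l q) (r % l q) (Nat.mod_lt _ (hl0 q)).le
    have h2 := words (r / l q + 1) (r % l q) (Nat.mod_lt _ (hl0 q)).le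
    have e : r / l q * l q + r % l q = r := by rw [mul_comm]; exact Nat.div_add_mod r (l q)
    rw [add_assoc, e] at h1
    rw [show i0 + (r / l q + 1) * l q + r % l q = i0 + (r / l q * l q + r % l q) + l q by ring, e]
      at h2
    rw [h1, h2]
  refine ⟨i0, fun x hx => ?_⟩
  obtain ⟨m, hm⟩ : l q ∣ ∏ q, l q := Finset.dvd_prod_of_mem l (Finset.mem_univ q)
  rw [hm]
  have : ∀ m : ℕ, a y (x + l q * m) = a y x := by
    intro m
    induction m with
    | zero => simp
    | succ m ih =>
      rw [show x + l q * (m + 1) = x + l q * m + l q by ring, per _ (by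
        have : 0 ≤ l q * m := Nat.zero_le _
        omega), ih]
  exact this m

variable {V : Type*} {G : Type*} [Group G] [MulAction G V] {Γ : SimpleGraph V}

/-- a horizontal translation of a high strip gives `ℤ²` -/
theorem z2_column (hA : Act G Γ) {d : ℕ} (hd : Deg Γ d) {L : Set (ℤ × ℤ → V)} {s : ℕ} (hs : 1 ≤ s)
    (hU : US G L s) {h : ℤ × ℤ → V} (hh : h ∈ L) (hfl : IsFlat Γ h) {W B : ℕ} (hW : s ≤ W)
    (hB : s + 1 ≤ B) {P : ℕ} (hP : 0 < P) (X : ℤ)
    (hper : ∀ y : ℕ, y ≤ cnt G h (rec (P + s) s) → Same G h (rec W B) (X, y) (X + P, y)) :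
    ∃ φ : Multiplicative (ℤ × ℤ) →* G, Injective φ := by
  classical
  set H := cnt G h (rec (P + s) s) with hH
  choose! u hu using hper
  have hu0 : ∀ y : ℕ, y ≤ H → ∀ z ∈ rec W B, u 0 • h (z + (X, (y : ℤ))) = h (z + (X + P, (y : ℤ))) := by
    intro y
    induction y with
    | zero => intro _; simpa using hu 0 (Nat.zero_le _)
    | succ y ih =>
      intro hy
      have h1 := ih (by omega)
      have h2 := hu (y + 1) hy
      have h3 : ∀ z, ((u (y + 1))⁻¹ * u 0) • h z = h z := by
        refine hU h hh _ (X, ((y + 1 : ℕ) : ℤ)) fun z hz => ?_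
        have hz' : z ∈ rec W B := ⟨hz.1, by have := hz.2.1; omega, hz.2.2.1, by
          have := hz.2.2.2; omega⟩
        have hz1 : z + (0, 1) ∈ rec W B := ⟨by have := hz.1; simp only [Prod.fst_add]; omega, by
          have := hz.2.1; simp only [Prod.fst_add]; omega, by
          have := hz.2.2.1; simp only [Prod.snd_add]; omega, by
          have := hz.2.2.2; simp only [Prod.snd_add]; omega⟩
        rw [mul_smul, inv_smul_eq_iff, h2 z hz']
        have h4 := h1 (z + (0, 1)) hz1
        have e : ∀ c : ℤ, z + (0, 1) + (c, (y : ℤ)) = z + (c, ((y + 1 : ℕ) : ℤ)) := by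
          intro c
          refine Prod.ext ?_ ?_
          · simp
          · simp only [Prod.snd_add]; push_cast; ring
        rw [e, e] at h4
        exact h4
      intro z hz
      have h4 := h3 (z + (X, ((y + 1 : ℕ) : ℤ)))
      rw [mul_smul, inv_smul_eq_iff] at h4
      rw [h4]
      exact h2 z hz
  have hFc := fin_rec hA hd hfl (P + s) s
  have hcard : hFc.toFinset.card < (Finset.range (H + 1)).card := by
    rw [Finset.card_range, ← Set.ncard_eq_toFinset_card _ hFc]
    change cnt G h (rec (P + s) s) < _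
    omega
  obtain ⟨i, hi, j, hj, hij, hcls⟩ := Finset.exists_ne_map_eq_of_card_lt_of_maps_to hcard
    (f := fun y : ℕ => cls G h (rec (P + s) s) (X, (y : ℤ))) (fun l _ => by
      rw [Finset.mem_coe]
      exact (Set.Finite.mem_toFinset (hs := hFc)).2 ⟨_, rfl⟩)
  obtain ⟨i, j, hij, hj, hcls⟩ : ∃ i j : ℕ, i < j ∧ j < H + 1 ∧
      cls G h (rec (P + s) s) (X, (i : ℤ)) = cls G h (rec (P + s) s) (X, (j : ℤ)) := by
    rcases Nat.lt_or_gt_of_ne hij with h1 | h1
    · exact ⟨i, j, h1, Finset.mem_range.1 hj, hcls⟩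
    · exact ⟨j, i, h1, Finset.mem_range.1 hi, hcls.symm⟩
  obtain ⟨g, hg⟩ := cls_eq_iff.1 hcls
  have hss : ∀ z ∈ rec s s, z ∈ rec W B := fun z hz => ⟨hz.1, by have := hz.2.1; omega, hz.2.2.1, by
    have := hz.2.2.2; omega⟩
  refine z2_strip hA hs hU hh hfl (x := X) (y := i) (σ := P) (τ := j - i) hP (by omega) (g := g)
    (u := u 0) ?_ ?_ ?_ ?_
  · intro z hz
    have := hg z ⟨hz.1, by have := hz.2.1; push_cast; omega, hz.2.2.1, hz.2.2.2⟩
    rw [show (i : ℤ) + ((j - i : ℕ) : ℤ) = j by omega]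
    exact this
  · intro z hz
    have := hg (z + ((P : ℤ), 0)) ⟨by have := hz.1; simp only [Prod.fst_add]; omega, by
      have := hz.2.1; simp only [Prod.fst_add]; push_cast; omega, by
      have := hz.2.2.1; simp only [Prod.snd_add]; omega, by
      have := hz.2.2.2; simp only [Prod.snd_add]; omega⟩
    rw [show (i : ℤ) + ((j - i : ℕ) : ℤ) = j by omega]
    have e : ∀ c : ℤ, z + ((P : ℤ), 0) + (X, c) = z + (X + P, c) := by
      intro c
      refine Prod.ext ?_ ?_
      · simp only [Prod.fst_add]; ring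
      · simp
    rw [e, e] at this
    exact this
  · intro z hz
    exact hu0 i (by omega) z (hss z hz)
  · intro z hz
    rw [show (i : ℤ) + ((j - i : ℕ) : ℤ) = j by omega]
    exact hu0 j (by omega) z (hss z hz)

/-- without `ℤ²` there are two loops at one pattern -/
theorem exists_loops (hA : Act G Γ) {d : ℕ} (hd : Deg Γ d)
    (hZ : ¬ ∃ φ : Multiplicative (ℤ × ℤ) →* G, Injective φ)
    {L : Set (ℤ × ℤ → V)} {s : ℕ} (hs : 1 ≤ s)
    (hU : US G L s) {h : ℤ × ℤ → V} (hh : h ∈ L) (hfl : IsFlat Γ h) {W B : ℕ} (hW : s ≤ W)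
    (hB : s + 1 ≤ B) : ∃ p l u, Loops G h W B p l u := by
  classical
  by_contra hcon
  push Not at hcon
  apply hZ
  have hFin : Fin' G h (rec W B) := fin_rec hA hd hfl W B
  have _ : Finite (range (cls G h (rec W B))) := hFin.to_subtype
  set a : ℕ → ℕ → range (cls G h (rec W B)) := fun y x => ⟨cls G h (rec W B) ((x : ℤ), (y : ℤ)), _, rfl⟩
    with ha
  have haeq : ∀ y x y' x', a y x = a y' x' ↔
      Same G h (rec W B) ((x : ℤ), (y : ℤ)) ((x' : ℤ), (y' : ℤ)) := by
    intro y x y' x'
    rw [ha]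
    simp only [Subtype.mk.injEq]
    exact cls_eq_iff
  obtain ⟨P, hP, hX⟩ := evper a (by
    intro y y' i j i' j' h1 h2 h3 h4 h5 h6 h7
    by_contra hne
    -- the loops
    have hs1 : ∀ b b' : Bool, Same G h (rec W B)
        ((if b then ((i' : ℤ), (y' : ℤ)) else ((i : ℤ), (y : ℤ))))
        ((if b' then ((i' : ℤ), (y' : ℤ)) else ((i : ℤ), (y : ℤ)))) := by
      have e := (haeq _ _ _ _).1 h4
      intro b b'
      cases b <;> cases b' <;> simp only [if_true, Bool.false_eq_true, if_false]
      · exact Same.refl _ _ _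
      · exact e.symm
      · exact e
      · exact Same.refl _ _ _
    have hj1 : ∀ b b' : Bool, Same G h (rec W B)
        ((if b' then ((i' : ℤ), (y' : ℤ)) else ((i : ℤ), (y : ℤ))))
        ((if b then ((i' : ℤ), (y' : ℤ)) else ((i : ℤ), (y : ℤ))) +
          (((if b then j' - i' else j - i : ℕ) : ℤ), 0)) := by
      intro b b'
      refine (hs1 b' b).trans ?_
      cases b <;> simp only [if_true, Bool.false_eq_true, if_false]
      · have e := (haeq _ _ _ _).1 h3
        rw [show ((i : ℤ), (y : ℤ)) + (((j - i : ℕ) : ℤ), (0 : ℤ)) = ((j : ℤ), (y : ℤ)) by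
          refine Prod.ext ?_ ?_
          · simp only [Prod.fst_add]; omega
          · simp]
        exact e.symm
      · have e := (haeq _ _ _ _).1 (h5.trans h4.symm)
        rw [show ((i' : ℤ), (y' : ℤ)) + (((j' - i' : ℕ) : ℤ), (0 : ℤ)) = ((j' : ℤ), (y' : ℤ)) by
          refine Prod.ext ?_ ?_
          · simp only [Prod.fst_add]; omega
          · simp]
        exact e.symm
    choose u hu using hj1
    refine hcon (fun b => if b then ((i' : ℤ), (y' : ℤ)) else ((i : ℤ), (y : ℤ)))
      (fun b => if b then j' - i' else j - i) u ⟨?_, ?_, ?_, ?_, ?_⟩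
    · intro b
      cases b <;> simp only [if_true, Bool.false_eq_true, if_false] <;> omega
    · intro b b' z hz
      exact hu b b' z hz
    · intro b b'
      exact hs1 b b'
    · intro b t ht1 ht2
      cases b <;> simp only [if_true, Bool.false_eq_true, if_false] at ht2 ⊢
      · intro hc
        refine h6 (i + t) (by omega) (by omega) ((haeq _ _ _ _).2 ?_)
        rw [show ((i : ℤ), (y : ℤ)) + ((t : ℤ), (0 : ℤ)) = (((i + t : ℕ) : ℤ), (y : ℤ)) by
          refine Prod.ext ?_ ?_ <;> simp] at hc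
        exact hc
      · intro hc
        refine h7 (i' + t) (by omega) (by omega) (Eq.trans ((haeq _ _ y' i').2 ?_) h4)
        rw [show ((i' : ℤ), (y' : ℤ)) + ((t : ℤ), (0 : ℤ)) = (((i' + t : ℕ) : ℤ), (y' : ℤ)) by
          refine Prod.ext ?_ ?_ <;> simp] at hc
        exact hc
    · simp only [if_true, Bool.false_eq_true, if_false]
      by_contra hc
      push Not at hc
      apply hne
      refine ⟨hc.1, fun t ht => ?_⟩
      rcases Nat.lt_or_ge t (j - i) with h8 | h8
      · have e := hc.2 t h8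
        rw [haeq]
        rw [show ((i : ℤ), (y : ℤ)) + ((t : ℤ), (0 : ℤ)) = (((i + t : ℕ) : ℤ), (y : ℤ)) by
          refine Prod.ext ?_ ?_ <;> simp,
          show ((i' : ℤ), (y' : ℤ)) + ((t : ℤ), (0 : ℤ)) = (((i' + t : ℕ) : ℤ), (y' : ℤ)) by
          refine Prod.ext ?_ ?_ <;> simp] at e
        exact e
      · have h9 : t = j - i := le_antisymm ht h8
        subst h9
        have e1 : i + (j - i) = j := by omega
        have e2 : i' + (j - i) = j' := by omega
        rw [e1, e2, h3, h5])
  choose X hX using hX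
  set X0 : ℕ := ∑ y ∈ Finset.range (cnt G h (rec (P + s) s) + 1), X y with hX0
  refine z2_column hA hd hs hU hh hfl hW hB hP (X := (X0 : ℤ)) fun y hy => ?_
  have h1 : X y ≤ X0 := Finset.single_le_sum (f := X) (fun _ _ => Nat.zero_le _)
    (Finset.mem_range.2 (by omega))
  have h2 := (haeq _ _ _ _).1 (hX y X0 h1)
  have h3 := h2.symm
  rw [show ((X0 + P : ℕ) : ℤ) = (X0 : ℤ) + P by push_cast; ring] at h3
  exact h3

end Pool.Agent.V5helper35.WF
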