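import Pool.Agent.V5helper35.WF.Per

/-!
# Counting flat rectangles
-/

set_option autoImplicit false

namespace Pool.Agent.V5helper35.WF

open Function Set Pool.Agent.N47.SQ

variable {V : Type*} {G : Type*} [Group G] [MulAction G V] {Γ : SimpleGraph V}

/-- a flat rectangle which looks like `f` on all blocks of length `w` -/
structure IsRect (Γ : SimpleGraph V) (G : Type*) [Group G] [MulAction G V] (f : ℤ × ℤ → V)
    (w n b : ℕ) (r : Fin (n + 1) × Fin (b + 1) → V) : Prop where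
  iso : ∀ z z', (Γ.dist (r z) (r z') : ℤ) =
    |((z.1 : ℕ) : ℤ) - (z'.1 : ℕ)| + |((z.2 : ℕ) : ℤ) - (z'.2 : ℕ)|
  loc : ∀ i : ℕ, ∃ (g : G) (c : ℤ × ℤ), ∀ z : Fin (n + 1) × Fin (b + 1),
    i ≤ (z.1 : ℕ) → (z.1 : ℕ) ≤ i + w → r z = g • f (c.1 + (z.1 : ℕ), c.2 + (z.2 : ℕ))

/-- the orbits of the rectangles -/
def rects (Γ : SimpleGraph V) (G : Type*) [Group G] [MulAction G V] (f : ℤ × ℤ → V) (w n b : ℕ) :
    Set (Set (Fin (n + 1) × Fin (b + 1) → V)) :=
  {O | ∃ r, IsRect Γ G f w n b r ∧ MulAction.orbit G r = O}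

/-- the fourth vertex of a square -/
theorem sq (hΓ : IsMedian Γ) {a b c d d' : V} (hab : Γ.Adj a b) (hac : Γ.Adj a c) (hbc : b ≠ c)
    (hbd : Γ.Adj b d) (hcd : Γ.Adj c d) (hbd' : Γ.Adj b d') (hcd' : Γ.Adj c d') (hda : d ≠ a)
    (hd'a : d' ≠ a) : d = d' := by
  by_contra hne
  exact hbc (hΓ.common_nbr hab.symm hbd hbd' hac.symm hcd hcd' hda.symm hne hd'a.symm)

/-- isometric on a rectangle -/
def Iso (Γ : SimpleGraph V) (n B : ℕ) (R : ℤ × ℤ → V) : Prop :=
  ∀ (x x' : ℕ) (y y' : ℕ), x ≤ n → x' ≤ n → y ≤ B → y' ≤ B →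
    (Γ.dist (R ((x : ℤ), (y : ℤ))) (R ((x' : ℤ), (y' : ℤ))) : ℤ) = |(x : ℤ) - x'| + |(y : ℤ) - y'|

theorem Iso.adj {n B : ℕ} {R : ℤ × ℤ → V} (hR : Iso Γ n B R) {x x' y y' : ℕ} (h1 : x ≤ n)
    (h2 : x' ≤ n) (h3 : y ≤ B) (h4 : y' ≤ B) (h : |(x : ℤ) - x'| + |(y : ℤ) - y'| = 1) :
    Γ.Adj (R ((x : ℤ), (y : ℤ))) (R ((x' : ℤ), (y' : ℤ))) := by
  rw [← adj_iff]
  have := hR x x' y y' h1 h2 h3 h4
  omega

theorem Iso.ne {n B : ℕ} {R : ℤ × ℤ → V} (hR : Iso Γ n B R) {x x' y y' : ℕ} (h1 : x ≤ n)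
    (h2 : x' ≤ n) (h3 : y ≤ B) (h4 : y' ≤ B) (h : |(x : ℤ) - x'| + |(y : ℤ) - y'| ≠ 0) :
    R ((x : ℤ), (y : ℤ)) ≠ R ((x' : ℤ), (y' : ℤ)) := by
  intro he
  have := hR x x' y y' h1 h2 h3 h4
  rw [he, SimpleGraph.dist_self] at this
  exact h this.symm

/-- a rectangle is determined by the lower part and the left side -/
theorem Iso.det (hΓ : IsMedian Γ) {n b B : ℕ} {R R' : ℤ × ℤ → V} (hR : Iso Γ n B R)
    (hR' : Iso Γ n B R')
    (h1 : ∀ x y : ℕ, x ≤ n → y ≤ b → R ((x : ℤ), (y : ℤ)) = R' ((x : ℤ), (y : ℤ)))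
    (h2 : ∀ y : ℕ, y ≤ B → R (0, (y : ℤ)) = R' (0, (y : ℤ))) :
    ∀ y x : ℕ, y ≤ B → x ≤ n → R ((x : ℤ), (y : ℤ)) = R' ((x : ℤ), (y : ℤ)) := by
  intro y
  induction y with
  | zero => intro x _ hx; exact h1 x 0 hx (Nat.zero_le _)
  | succ y ihy =>
    intro x
    induction x with
    | zero =>
      intro hy _
      exact_mod_cast h2 (y + 1) hy
    | succ x ihx =>
      intro hy hx
      have e1 := ihx hy (by omega)
      have e2 := ihy x (by omega) (by omega)
      have e3 := ihy (x + 1) (by omega) hx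
      refine sq hΓ (a := R ((x : ℤ), (y : ℤ))) (b := R (((x + 1 : ℕ) : ℤ), (y : ℤ)))
        (c := R ((x : ℤ), ((y + 1 : ℕ) : ℤ))) ?_ ?_ ?_ ?_ ?_ ?_ ?_ ?_ ?_
      · exact hR.adj (by omega) hx (by omega) (by omega) (by push_cast; simp)
      · exact hR.adj (by omega) (by omega) (by omega) hy (by push_cast; simp)
      · exact hR.ne hx (by omega) (by omega) hy (by push_cast; simp)
      · exact hR.adj hx hx (by omega) hy (by push_cast; simp)
      · exact hR.adj (by omega) hx hy hy (by push_cast; simp)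
      · rw [e3]
        exact hR'.adj hx hx (by omega) hy (by push_cast; simp)
      · rw [e1]
        exact hR'.adj (by omega) hx hy hy (by push_cast; simp)
      · exact hR.ne hx (by omega) hy (by omega) (by push_cast; simp)
      · rw [e2]
        exact hR'.ne hx (by omega) hy (by omega) (by push_cast; simp)

/-- the restriction to a rectangle -/
def res (n b : ℕ) (R : ℤ × ℤ → V) : Fin (n + 1) × Fin (b + 1) → V :=
  fun z => R (((z.1 : ℕ) : ℤ), ((z.2 : ℕ) : ℤ))

theorem rects_fin (hA : Act G Γ) (f : ℤ × ℤ → V) (w n b : ℕ) {K : Set V} (hK : K.Finite)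
    (hGK : ∀ v : V, ∃ g : G, g • v ∈ K) : (rects Γ G f w n b).Finite := by
  have h1 : (Set.pi Set.univ (fun _ : Fin (n + 1) × Fin (b + 1) =>
      {w | ∃ u ∈ K, Γ.dist u w ≤ n + b})).Finite := by
    have := Set.Finite.pi' (ι := Fin (n + 1) × Fin (b + 1)) (fun _ => hA.ballK hK (n + b))
    convert this using 1
    ext r
    rw [Set.mem_univ_pi]
    rfl
  refine (h1.image (fun r => MulAction.orbit G r)).subset ?_
  rintro _ ⟨r, hr, rfl⟩
  obtain ⟨g, hg⟩ := hGK (r (0, 0))
  refine ⟨g • r, ?_, ?_⟩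
  · rw [Set.mem_univ_pi]
    intro z
    refine ⟨_, hg, ?_⟩
    rw [Pi.smul_apply, hA.dist]
    have := hr.iso (0, 0) z
    simp only [Fin.val_zero, Nat.cast_zero, zero_sub, abs_neg, Nat.abs_cast] at this
    have h2 := z.1.2
    have h3 := z.2.2
    omega
  · exact MulAction.orbit_smul g r

theorem exp_growth (hA : Act G Γ)
    (hZ : ¬ ∃ φ : Multiplicative (ℤ × ℤ) →* G, Injective φ)
    {f : ℤ × ℤ → V} (hf : IsFlat Γ f) (w b : ℕ) :
    ∃ K M : ℕ, 0 < K ∧ 0 < M ∧ ∀ n : ℕ, 2 ^ (n / K) ≤ M * (rects Γ G f w n b).ncard := by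
  classical
  obtain ⟨d, hd⟩ : ∃ d : ℕ, Deg Γ d := by
    obtain ⟨K, hK, hGK⟩ := hA.orb
    refine ⟨∑ w ∈ hK.toFinset, (Γ.neighborSet w).ncard, fun v => ⟨hA.fin v, ?_⟩⟩
    obtain ⟨g, hg⟩ := hGK v
    have h1 : (Γ.neighborSet v).ncard ≤ (Γ.neighborSet (g • v)).ncard := by
      refine Set.ncard_le_ncard_of_injOn (fun w => g • w) (fun w hw => hA.aut g v w hw) ?_
        (hA.fin (g • v))
      intro w _ w' _ h
      exact MulAction.injective g h
    exact h1.trans (Finset.single_le_sum (f := fun w => (Γ.neighborSet w).ncard)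
      (fun _ _ => Nat.zero_le _) (hK.mem_toFinset.2 hg))
  obtain ⟨L, hLf, hL⟩ := (Orb.sys hA hf).exists_min hA ⟨f, Orb.self f⟩
  obtain ⟨s, hs, hU⟩ := us' hA hL
  obtain ⟨h, hh⟩ := hL.ne
  have hfl := hL.sys.flat h hh
  set W := max w (s + 2) with hW
  set B := max b (s + 1) with hB
  obtain ⟨p, l, u, hLo⟩ := exists_loops hA hd hZ hs hU hh hfl (W := W) (B := B) (by omega)
    (by omega)
  set K := l false + l true with hK
  have hK0 : 0 < K := by
    have := hLo.pos false
    omega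
  obtain ⟨F, hF, hGF⟩ := hA.orb
  set Bl : Set V := {w | ∃ u ∈ F, Γ.dist u w ≤ B} with hBl
  have hBlf : Bl.Finite := hA.ballK hF B
  set C : Set (Fin (B + 1) → V) := Set.pi Set.univ fun _ => Bl with hC
  have hCf : C.Finite := by
    have := Set.Finite.pi' (ι := Fin (B + 1)) (fun _ => hBlf)
    convert this using 1
    ext r
    rw [hC, Set.mem_univ_pi]
    rfl
  -- the strips
  set R : (ℕ → Bool) → ℤ × ℤ → V := fun ε => RR p l u h ε with hR
  have hiso : ∀ ε n, Iso Γ n B (R ε) := by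
    intro ε n x x' y y' _ _ h3 h4
    exact RR_iso p l u hA hfl hLo (by omega) ε x x' y y' (by omega) (by omega) (by omega) (by omega)
  have hrect : ∀ ε n, IsRect Γ G f w n b (res n b (R ε)) := by
    intro ε n
    refine ⟨fun z z' => ?_, fun i => ?_⟩
    · exact hiso ε n _ _ _ _ (by omega) (by omega) (by omega) (by omega)
    · obtain ⟨g', c', hg'⟩ := Orb.pos (hLf hh) W B (ps p l ε i)
      refine ⟨gg l u ε i * g', c' - ((i : ℤ), 0), fun z h1 h2 => ?_⟩
      have h3 := window p l u hLo ε ((z.1 : ℕ) - i) (by omega) i ((z.2 : ℕ) : ℤ) (by omega)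
        (by omega)
      rw [show (i : ℤ) + (((z.1 : ℕ) - i : ℕ) : ℤ) = ((z.1 : ℕ) : ℤ) by omega] at h3
      change RR p l u h ε _ = _
      rw [h3, hg' _ ⟨by simp, by simp only; omega, by simp, by simp only; omega⟩, mul_smul]
      congr 3
      refine Prod.ext ?_ ?_
      · simp only [Prod.fst_add, Prod.fst_sub]; omega
      · simp only [Prod.snd_add, Prod.snd_sub]; ring
  have hfin : ∀ n, (rects Γ G f w n b).Finite := fun n => rects_fin hA f w n b hF hGF
  have hne : ∀ n, 1 ≤ (rects Γ G f w n b).ncard := by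
    intro n
    refine (Set.ncard_pos (hfin n)).2 ⟨_, _, hrect (fun _ => false) n, rfl⟩
  have hCne : 1 ≤ C.ncard := by
    obtain ⟨g, hg⟩ := hGF (R (fun _ => false) (0, 0))
    refine (Set.ncard_pos hCf).2 ⟨fun _ => g • R (fun _ => false) (0, 0), ?_⟩
    rw [hC, Set.mem_univ_pi]
    intro _
    exact ⟨_, hg, by rw [SimpleGraph.dist_self]; omega⟩
  -- the main count
  have count : ∀ k n : ℕ, k * K + W ≤ n → 2 ^ k ≤ (rects Γ G f w n b).ncard * C.ncard := by
    intro k n hkn
    -- normalised representatives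
    have hrep : ∀ O ∈ rects Γ G f w n b, ∃ r : Fin (n + 1) × Fin (b + 1) → V,
        MulAction.orbit G r = O ∧ r (0, 0) ∈ F := by
      rintro _ ⟨r, _, rfl⟩
      obtain ⟨g, hg⟩ := hGF (r (0, 0))
      exact ⟨g • r, MulAction.orbit_smul g r, hg⟩
    have : Nonempty (Fin (n + 1) × Fin (b + 1) → V) := ⟨res n b (R fun _ => false)⟩
    choose! rp hrp1 hrp2 using hrep
    set ext : (Fin k → Bool) → ℕ → Bool := fun ε i => if hi : i < k then ε ⟨i, hi⟩ else false
      with hext
    set O : (Fin k → Bool) → Set (Fin (n + 1) × Fin (b + 1) → V) := fun ε =>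
      MulAction.orbit G (res n b (R (ext ε))) with hO
    have hOm : ∀ ε, O ε ∈ rects Γ G f w n b := fun ε => ⟨_, hrect _ n, rfl⟩
    have hg : ∀ ε, ∃ g : G, g • res n b (R (ext ε)) = rp (O ε) := by
      intro ε
      have h1 : rp (O ε) ∈ MulAction.orbit G (res n b (R (ext ε))) := by
        have h2 : rp (O ε) ∈ MulAction.orbit G (rp (O ε)) := MulAction.mem_orbit_self _
        rw [hrp1 _ (hOm ε)] at h2
        exact h2
      exact h1
    choose g hg using hg
    set Φ : (Fin k → Bool) → Set (Fin (n + 1) × Fin (b + 1) → V) × (Fin (B + 1) → V) := fun ε =>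
      (O ε, fun y => g ε • R (ext ε) (0, ((y : ℕ) : ℤ))) with hΦ
    have hmem : ∀ ε, Φ ε ∈ (rects Γ G f w n b) ×ˢ C := by
      intro ε
      refine ⟨hOm ε, ?_⟩
      rw [hC, Set.mem_univ_pi]
      intro y
      refine ⟨rp (O ε) (0, 0), hrp2 _ (hOm ε), ?_⟩
      rw [← hg ε, Pi.smul_apply]
      simp only [hΦ]
      rw [hA.dist]
      have := hiso (ext ε) n 0 0 0 y (by omega) (by omega) (by omega) (by omega)
      have e : res n b (R (ext ε)) (0, 0) = R (ext ε) (((0 : ℕ) : ℤ), ((0 : ℕ) : ℤ)) := rfl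
      rw [e]
      have e2 : R (ext ε) (0, ((y : ℕ) : ℤ)) = R (ext ε) (((0 : ℕ) : ℤ), ((y : ℕ) : ℤ)) := rfl
      rw [e2]
      have hy := y.2
      simp only [sub_self, abs_zero, zero_add, Nat.cast_zero, zero_sub, abs_neg, Nat.abs_cast]
        at this
      simp only [Nat.cast_zero]
      omega
    have hinj : Injective Φ := by
      intro ε ε' he
      have he1 : O ε = O ε' := congrArg Prod.fst he
      have he2 : ∀ y : Fin (B + 1), g ε • R (ext ε) (0, ((y : ℕ) : ℤ)) =
          g ε' • R (ext ε') (0, ((y : ℕ) : ℤ)) := fun y => congrFun (congrArg Prod.snd he) y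
      have he3 : g ε • res n b (R (ext ε)) = g ε' • res n b (R (ext ε')) := by
        rw [hg, hg, he1]
      -- equal on the whole rectangle
      have i1 : Iso Γ n B (fun z => g ε • R (ext ε) z) := by
        intro x x' y y' h1 h2 h3 h4
        rw [hA.dist]
        exact hiso (ext ε) n x x' y y' h1 h2 h3 h4
      have i2 : Iso Γ n B (fun z => g ε' • R (ext ε') z) := by
        intro x x' y y' h1 h2 h3 h4
        rw [hA.dist]
        exact hiso (ext ε') n x x' y y' h1 h2 h3 h4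
      have heq := Iso.det hA.med i1 i2 (b := b) (by
        intro x y hx hy
        exact congrFun he3 (⟨x, by omega⟩, ⟨y, by omega⟩)) (by
        intro y hy
        exact he2 ⟨y, by omega⟩)
      have hdec := decode p l u hLo (ε := ext ε) (ε' := ext ε') k (by
        intro t ht
        refine ⟨(gg l u (ext ε') t)⁻¹ * (g ε')⁻¹ * g ε * gg l u (ext ε) t, fun z hz => ?_⟩
        obtain ⟨a1, a2, a3, a4⟩ := hz
        obtain ⟨x, hx⟩ := Int.eq_ofNat_of_zero_le a1
        obtain ⟨y, hy⟩ := Int.eq_ofNat_of_zero_le a3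
        have ez : z = ((x : ℤ), (y : ℤ)) := Prod.ext hx hy
        have ht' : t ≤ k * K := ht
        have hxW : x ≤ W := by
          have := a2
          rw [hx] at this
          exact_mod_cast this
        have hyB : y ≤ B := by
          have := a4
          rw [hy] at this
          exact_mod_cast this
        have w1 := window p l u hLo (ext ε) x (by omega) t y (by omega) (by omega)
        have w2 := window p l u hLo (ext ε') x (by omega) t y (by omega) (by omega)
        have e3 := heq y (t + x) hyB (by omega)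
        simp only [hR] at e3
        rw [show ((t + x : ℕ) : ℤ) = (t : ℤ) + x by push_cast; ring, w1, w2] at e3
        rw [ez, mul_smul, mul_smul, mul_smul, e3, inv_smul_smul, inv_smul_smul])
      funext i
      have := hdec i i.2
      simp only [hext] at this
      rw [dif_pos i.2, dif_pos i.2] at this
      exact this
    have hc : (Set.univ : Set (Fin k → Bool)).ncard ≤ ((rects Γ G f w n b) ×ˢ C).ncard :=
      Set.ncard_le_ncard_of_injOn Φ (fun ε _ => hmem ε) hinj.injOn ((hfin n).prod hCf)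
    rw [Set.ncard_univ, Nat.card_fun] at hc
    simp only [Nat.card_eq_fintype_card, Fintype.card_bool, Fintype.card_fin] at hc
    rwa [Set.ncard_prod] at hc
  refine ⟨K, C.ncard * 2 ^ (W / K + 2), hK0, by positivity, fun n => ?_⟩
  rcases Nat.lt_or_ge n W with hn | hn
  · have h1 : n / K ≤ W / K + 2 := by
      have := Nat.div_le_div_right (c := K) hn.le
      omega
    calc 2 ^ (n / K) ≤ 2 ^ (W / K + 2) := Nat.pow_le_pow_right two_pos h1
      _ = 1 * 2 ^ (W / K + 2) * 1 := by ring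
      _ ≤ C.ncard * 2 ^ (W / K + 2) * (rects Γ G f w n b).ncard :=
        Nat.mul_le_mul (Nat.mul_le_mul_right _ hCne) (hne n)
  · set k := (n - W) / K with hk
    have h1 : k * K + W ≤ n := by
      have := Nat.div_mul_le_self (n - W) K
      rw [← hk] at this
      omega
    have h2 := count k n h1
    have h3 : n / K ≤ k + (W / K + 2) := by
      have e : n = (n - W) + W := by omega
      have h4 : n / K < k + W / K + 2 := by
        rw [Nat.div_lt_iff_lt_mul hK0]
        have h5 := Nat.lt_div_mul_add hK0 (a := n - W)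
        have h6 := Nat.lt_div_mul_add hK0 (a := W)
        rw [← hk] at h5
        calc n = (n - W) + W := e
          _ < (k * K + K) + (W / K * K + K) := by omega
          _ = (k + W / K + 2) * K := by ring
      omega
    calc 2 ^ (n / K) ≤ 2 ^ (k + (W / K + 2)) := Nat.pow_le_pow_right two_pos h3
      _ = 2 ^ k * 2 ^ (W / K + 2) := pow_add _ _ _
      _ ≤ (rects Γ G f w n b).ncard * C.ncard * 2 ^ (W / K + 2) := Nat.mul_le_mul_right _ h2
      _ = _ := by ring

end Pool.Agent.V5helper35.WF
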