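import Pool.Agent.V5helper35.WF.Rects

/-!
# The free semigroup of the translations of thick strips
-/

set_option autoImplicit false

namespace Pool.Agent.V5helper35.WF

open Function Set Pool.Agent.N47.SQ

variable {V : Type*} {G : Type*} [Group G] [MulAction G V] {Γ : SimpleGraph V}

theorem Iso.mono {n n' B : ℕ} {R : ℤ × ℤ → V} (hR : Iso Γ n B R) (h : n' ≤ n) : Iso Γ n' B R :=
  fun x x' y y' h1 h2 h3 h4 => hR x x' y y' (h1.trans h) (h2.trans h) h3 h4

/-- rectangles with the same left side and the same lower right corner -/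
theorem Iso.row (hΓ : IsMedian Γ) (h3 : NoThreeCube Γ) {n B : ℕ} {R R' : ℤ × ℤ → V}
    (hR : Iso Γ n B R) (hR' : Iso Γ n B R') (hB : 1 ≤ B)
    (h1 : ∀ y : ℕ, y ≤ B → R (0, (y : ℤ)) = R' (0, (y : ℤ)))
    (h2 : R ((n : ℤ), ((0 : ℕ) : ℤ)) = R' ((n : ℤ), ((0 : ℕ) : ℤ))) :
    ∀ x : ℕ, x ≤ n → ∀ i : ℕ, i ≤ x → R ((i : ℤ), ((0 : ℕ) : ℤ)) = R' ((i : ℤ), ((0 : ℕ) : ℤ)) := by
  intro x
  induction x with
  | zero =>
    intro _ i hi
    have : i = 0 := by omega
    subst this
    exact_mod_cast h1 0 (Nat.zero_le _)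
  | succ x ih =>
    intro hx i hi
    rcases Nat.lt_or_ge i (x + 1) with hi' | hi'
    · exact ih (by omega) i (by omega)
    have hi'' : i = x + 1 := le_antisymm hi hi'
    subst hi''
    by_contra hne
    have hdet := Iso.det hΓ (hR.mono (n' := x) (by omega)) (hR'.mono (n' := x) (by omega)) (b := 0)
      (by
        intro x' y' hx' hy'
        have : y' = 0 := by omega
        subst this
        exact ih (by omega) x' hx') h1
    have e1 : R ((x : ℤ), ((1 : ℕ) : ℤ)) = R' ((x : ℤ), ((1 : ℕ) : ℤ)) := hdet 1 x hB le_rfl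
    have e0 : R ((x : ℤ), ((0 : ℕ) : ℤ)) = R' ((x : ℤ), ((0 : ℕ) : ℤ)) := ih (by omega) x le_rfl
    -- distances
    have d0 := hR n x 0 0 le_rfl (by omega) (by omega) (by omega)
    have d1 := hR n (x + 1) 0 0 le_rfl (by omega) (by omega) (by omega)
    have d0' := hR' n x 0 0 le_rfl (by omega) (by omega) (by omega)
    have d1' := hR' n (x + 1) 0 0 le_rfl (by omega) (by omega) (by omega)
    have a0 : |(n : ℤ) - x| + |((0 : ℕ) : ℤ) - ((0 : ℕ) : ℤ)| = (n : ℤ) - x := by
      rw [sub_self, abs_zero, add_zero, abs_of_nonneg (by omega)]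
    have a1 : |(n : ℤ) - ((x + 1 : ℕ) : ℤ)| + |((0 : ℕ) : ℤ) - ((0 : ℕ) : ℤ)| =
        (n : ℤ) - ((x + 1 : ℕ) : ℤ) := by
      rw [sub_self, abs_zero, add_zero, abs_of_nonneg (by omega)]
    rw [a0] at d0 d0'
    rw [a1] at d1 d1'
    rw [← h2] at d0' d1'
    have hq : Γ.Adj (R ((x : ℤ), ((0 : ℕ) : ℤ))) (R (((x + 1 : ℕ) : ℤ), ((0 : ℕ) : ℤ))) :=
      hR.adj (by omega) (by omega) (by omega) (by omega) (by push_cast; simp)
    have hr : Γ.Adj (R ((x : ℤ), ((0 : ℕ) : ℤ))) (R' (((x + 1 : ℕ) : ℤ), ((0 : ℕ) : ℤ))) := by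
      rw [e0]
      exact hR'.adj (by omega) (by omega) (by omega) (by omega) (by push_cast; simp)
    obtain ⟨s, s1, s2, s3⟩ := hΓ.quad (v := R ((n : ℤ), ((0 : ℕ) : ℤ))) hq hr hne (by omega)
      (by omega)
    refine no_three hΓ h3 (c := R ((x : ℤ), ((0 : ℕ) : ℤ))) (p := R ((x : ℤ), ((1 : ℕ) : ℤ)))
      (q := R (((x + 1 : ℕ) : ℤ), ((0 : ℕ) : ℤ))) (r := R' (((x + 1 : ℕ) : ℤ), ((0 : ℕ) : ℤ)))
      (spq := R (((x + 1 : ℕ) : ℤ), ((1 : ℕ) : ℤ))) (spr := R' (((x + 1 : ℕ) : ℤ), ((1 : ℕ) : ℤ)))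
      (sqr := s) ?_ hq hr ?_ ?_ hne ?_ ?_ ?_ ?_ ?_ ?_ s1 s2 ?_
    · exact hR.adj (by omega) (by omega) (by omega) (by omega) (by push_cast; simp)
    · exact hR.ne (by omega) (by omega) (by omega) (by omega) (by push_cast; simp)
    · rw [e1]
      exact hR'.ne (by omega) (by omega) (by omega) (by omega) (by push_cast; simp)
    · exact hR.adj (by omega) (by omega) (by omega) (by omega) (by push_cast; simp)
    · exact hR.adj (by omega) (by omega) (by omega) (by omega) (by push_cast; simp)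
    · exact hR.ne (by omega) (by omega) (by omega) (by omega) (by push_cast; simp)
    · rw [e1]
      exact hR'.adj (by omega) (by omega) (by omega) (by omega) (by push_cast; simp)
    · exact hR'.adj (by omega) (by omega) (by omega) (by omega) (by push_cast; simp)
    · rw [e0]
      exact hR'.ne (by omega) (by omega) (by omega) (by omega) (by push_cast; simp)
    · rintro rfl
      omega

theorem Iso.sides (hΓ : IsMedian Γ) (h3 : NoThreeCube Γ) {n B : ℕ} {R R' : ℤ × ℤ → V}
    (hR : Iso Γ n B R) (hR' : Iso Γ n B R') (hB : 1 ≤ B)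
    (h1 : ∀ y : ℕ, y ≤ B → R (0, (y : ℤ)) = R' (0, (y : ℤ)))
    (h2 : R ((n : ℤ), ((0 : ℕ) : ℤ)) = R' ((n : ℤ), ((0 : ℕ) : ℤ))) :
    ∀ y x : ℕ, y ≤ B → x ≤ n → R ((x : ℤ), (y : ℤ)) = R' ((x : ℤ), (y : ℤ)) := by
  have h := Iso.row hΓ h3 hR hR' hB h1 h2 n le_rfl
  refine Iso.det hΓ hR hR' (b := 0) ?_ h1
  intro x y hx hy
  have : y = 0 := by omega
  subst this
  exact h x hx

/-- the shifted sequence -/
def sh (ε : ℕ → Bool) (j : ℕ) : ℕ → Bool := fun i => ε (j + i)

theorem st_shift (l : Bool → ℕ) (ε : ℕ → Bool) (hl : ∀ b, 0 < l b) (j t : ℕ) :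
    st l ε (T l ε j + t) = (j + (st l (sh ε j) t).1, (st l (sh ε j) t).2) := by
  induction t with
  | zero =>
    rw [add_zero, st_T l hl j]
    rfl
  | succ t ih =>
    rw [← add_assoc, st_succ, st_succ, ih]
    simp only [sh]
    split_ifs
    · rfl
    · rfl

theorem gg_shift (l : Bool → ℕ) (u : Bool → Bool → G) (ε : ℕ → Bool) (hl : ∀ b, 0 < l b)
    (j t : ℕ) : gg l u ε (T l ε j + t) = gg l u ε (T l ε j) * gg l u (sh ε j) t := by
  induction t with
  | zero => rw [add_zero]; simp [gg]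
  | succ t ih =>
    rw [← add_assoc, gg_succ, gg_succ, st_shift l ε hl, ih]
    simp only [sh]
    split_ifs
    · rfl
    · rw [mul_assoc]
      rfl

theorem gg_block (l : Bool → ℕ) (u : Bool → Bool → G) (ε : ℕ → Bool) (hl : ∀ b, 0 < l b) (t : ℕ)
    (ht : t < l (ε 0)) : gg l u ε t = 1 := by
  induction t with
  | zero => rfl
  | succ t ih =>
    have h1 := st_block l hl (ε := ε) (t0 := 0) (j := 0) rfl t (by omega)
    rw [zero_add] at h1
    rw [gg_succ, h1]
    simp only
    rw [if_pos ht]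
    exact ih (by omega)

theorem gg_end (l : Bool → ℕ) (u : Bool → Bool → G) (ε : ℕ → Bool) (hl : ∀ b, 0 < l b) :
    gg l u ε (l (ε 0)) = u (ε 0) (ε 1) := by
  obtain ⟨i, hi⟩ := Nat.exists_eq_add_of_lt (hl (ε 0))
  rw [zero_add] at hi
  have h1 := st_block l hl (ε := ε) (t0 := 0) (j := 0) rfl i (by omega)
  rw [zero_add] at h1
  rw [hi, gg_succ, h1]
  simp only
  rw [if_neg (by omega), gg_block l u ε hl i (by omega), one_mul]

/-- the product of the first `j` elements -/
def pr (θ : Bool → G) (ε : ℕ → Bool) (j : ℕ) : G := ((List.range j).map fun i => θ (ε i)).prod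

theorem pr_succ (θ : Bool → G) (ε : ℕ → Bool) (j : ℕ) : pr θ ε (j + 1) = pr θ ε j * θ (ε j) := by
  unfold pr
  rw [List.range_succ, List.map_append, List.prod_append]
  simp

theorem gg_T (l : Bool → ℕ) (a θ : Bool → G) (ε : ℕ → Bool) (hl : ∀ b, 0 < l b) (j : ℕ) :
    gg l (fun b b' => a b * θ b * (a b')⁻¹) ε (T l ε j) = a (ε 0) * pr θ ε j * (a (ε j))⁻¹ := by
  induction j with
  | zero => simp [T, gg, pr]
  | succ j ih =>
    have h1 : T l ε (j + 1) = T l ε j + l (sh ε j 0) := Finset.sum_range_succ _ _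
    rw [h1, gg_shift l _ ε hl, ih, gg_end l _ _ hl, pr_succ]
    simp only [sh, add_zero]
    group

section strips

variable (p : Bool → ℤ × ℤ) (l : Bool → ℕ) (a θ : Bool → G) (f : ℤ × ℤ → V)

/-- the strip over a half line, beginning with the block `f (p false + ·)` -/
def HS (ε : ℕ → Bool) (z : ℤ × ℤ) : V :=
  (a (ε 0))⁻¹ • RR p l (fun b b' => a b * θ b * (a b')⁻¹) f ε z

theorem HS_shift (hl : ∀ b, 0 < l b) (ε : ℕ → Bool) (j x : ℕ) (y : ℤ) :
    HS p l a θ f ε ((T l ε j : ℤ) + x, y) = pr θ ε j • HS p l a θ f (sh ε j) ((x : ℤ), y) := by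
  unfold HS RR
  simp only
  rw [show ((T l ε j : ℤ) + (x : ℤ)).toNat = T l ε j + x by omega,
    show ((x : ℤ)).toNat = x by omega, gg_shift l _ ε hl, gg_T l a θ ε hl]
  have hps : ps p l ε (T l ε j + x) = ps p l (sh ε j) x := by
    unfold ps
    rw [st_shift l ε hl]
    rfl
  rw [hps]
  simp only [sh, add_zero, ← mul_smul]
  congr 1
  group

end strips

/-- the connecting elements -/
structure Conn (G : Type*) {V : Type*} [Group G] [MulAction G V] (f : ℤ × ℤ → V) (W B : ℕ)
    (p : Bool → ℤ × ℤ) (l : Bool → ℕ) (a θ : Bool → G) : Prop where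
  conn : ∀ b, ∀ z ∈ rec W B, a b • f (z + p false) = f (z + p b)
  tr : ∀ b, ∀ z ∈ rec W B, (a b * θ b) • f (z + p false) = f (z + (p b + ((l b : ℤ), 0)))

theorem exists_conn {f : ℤ × ℤ → V} {W B : ℕ} {p : Bool → ℤ × ℤ} {l : Bool → ℕ}
    {u : Bool → Bool → G} (hL : Loops G f W B p l u) : ∃ a θ : Bool → G, Conn G f W B p l a θ := by
  have h := fun b => hL.same false b
  choose a ha using h
  refine ⟨a, fun b => (a b)⁻¹ * u b false, ⟨ha, fun b z hz => ?_⟩⟩
  rw [mul_inv_cancel_left]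
  exact hL.jump b false z hz

theorem Conn.loops {f : ℤ × ℤ → V} {W B : ℕ} {p : Bool → ℤ × ℤ} {l : Bool → ℕ}
    {u : Bool → Bool → G} {a θ : Bool → G} (hC : Conn G f W B p l a θ) (hL : Loops G f W B p l u) :
    Loops G f W B p l (fun b b' => a b * θ b * (a b')⁻¹) where
  pos := hL.pos
  jump := fun b b' z hz => by
    rw [mul_smul, ← hC.conn b' z hz, inv_smul_smul]
    exact hC.tr b z hz
  same := hL.same
  first := hL.first
  diff := hL.diff

section main

variable {f : ℤ × ℤ → V} {W B : ℕ} {p : Bool → ℤ × ℤ} {l : Bool → ℕ} {a θ : Bool → G}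

/-- the first block of all the strips -/
theorem HS_first (hC : Conn G f W B p l a θ)
    (hL : Loops G f W B p l (fun b b' => a b * θ b * (a b')⁻¹)) (ε : ℕ → Bool) (x : ℕ)
    (hx : x ≤ W) (y : ℤ) (h1 : 0 ≤ y) (h2 : y ≤ B) :
    HS p l a θ f ε ((x : ℤ), y) = f (((x : ℤ), y) + p false) := by
  have h := window p l _ hL ε x hx 0 y h1 h2
  rw [show ((0 : ℕ) : ℤ) + (x : ℤ) = x by simp] at h
  unfold HS
  rw [h, inv_smul_eq_iff, hC.conn (ε 0) ((x : ℤ), y) ⟨by simp, by simp only; omega, h1, h2⟩]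
  have e : ps p l ε 0 = p (ε 0) := by
    unfold ps
    change p (ε 0) + (((0 : ℕ) : ℤ), (0 : ℤ)) = _
    simp
  rw [e]
  simp [gg]

theorem HS_iso (hA : Act G Γ) (hf : IsFlat Γ f)
    (hL : Loops G f W B p l (fun b b' => a b * θ b * (a b')⁻¹)) (hW : 2 ≤ W) (ε : ℕ → Bool)
    (x x' : ℕ) (y y' : ℤ) (h1 : 0 ≤ y) (h2 : y ≤ B) (h3 : 0 ≤ y') (h4 : y' ≤ B) :
    (Γ.dist (HS p l a θ f ε ((x : ℤ), y)) (HS p l a θ f ε ((x' : ℤ), y')) : ℤ) =
      |(x : ℤ) - x'| + |y - y'| := by
  unfold HS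
  rw [hA.dist]
  exact RR_iso p l _ hA hf hL hW ε x x' y y' h1 h2 h3 h4

theorem HS_Iso (hA : Act G Γ) (hf : IsFlat Γ f)
    (hL : Loops G f W B p l (fun b b' => a b * θ b * (a b')⁻¹)) (hW : 2 ≤ W) (ε : ℕ → Bool)
    (n : ℕ) : Iso Γ n B (HS p l a θ f ε) := by
  intro x x' y y' _ _ h3 h4
  exact HS_iso hA hf hL hW ε x x' y y' (by omega) (by omega) (by omega) (by omega)

/-- equal strips have equal first letters -/
theorem first_eq (hL : Loops G f W B p l (fun b b' => a b * θ b * (a b')⁻¹)) {ε ε' : ℕ → Bool}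
    (h : ∀ y x : ℕ, y ≤ B → x ≤ (l false + l true) + W →
      HS p l a θ f ε ((x : ℤ), (y : ℤ)) = HS p l a θ f ε' ((x : ℤ), (y : ℤ))) : ε 0 = ε' 0 := by
  refine decode p l _ hL 1 (fun t ht => ?_) 0 one_pos
  refine ⟨(gg l (fun b b' => a b * θ b * (a b')⁻¹) ε' t)⁻¹ * a (ε' 0) * (a (ε 0))⁻¹ *
    gg l (fun b b' => a b * θ b * (a b')⁻¹) ε t, fun z hz => ?_⟩
  obtain ⟨a1, a2, a3, a4⟩ := hz
  obtain ⟨x, hx⟩ := Int.eq_ofNat_of_zero_le a1
  obtain ⟨y, hy⟩ := Int.eq_ofNat_of_zero_le a3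
  have ez : z = ((x : ℤ), (y : ℤ)) := Prod.ext hx hy
  have w1 := window p l _ hL ε x (by omega) t y (by omega) (by omega)
  have w2 := window p l _ hL ε' x (by omega) t y (by omega) (by omega)
  have e3 := h y (t + x) (by omega) (by omega)
  unfold HS at e3
  rw [show ((t + x : ℕ) : ℤ) = (t : ℤ) + x by push_cast; ring, w1, w2, inv_smul_eq_iff] at e3
  rw [ez, mul_smul, mul_smul, mul_smul, e3, inv_smul_smul, smul_inv_smul, inv_smul_smul]

/-- the product of a word -/
theorem pr_list (ω : List Bool) {ε : ℕ → Bool} (h : ∀ i, (hi : i < ω.length) → ε i = ω[i]) :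
    pr θ ε ω.length = (ω.map θ).prod := by
  unfold pr
  congr 1
  refine List.ext_getElem (by simp) fun i h1 h2 => ?_
  simp only [List.getElem_map, List.getElem_range]
  rw [h i (by simpa using h2)]

theorem sum_range_list (c : ℕ → ℕ) (j : ℕ) :
    ∑ i ∈ Finset.range j, c i = ((List.range j).map c).sum := by
  induction j with
  | zero => simp
  | succ j ih => rw [Finset.sum_range_succ, ih, List.range_succ, List.map_append, List.sum_append]; simp

theorem T_list (ω : List Bool) {ε : ℕ → Bool} (h : ∀ i, (hi : i < ω.length) → ε i = ω[i]) :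
    T l ε ω.length = (ω.map l).sum := by
  unfold T
  rw [sum_range_list (fun i => l (ε i))]
  congr 1
  refine List.ext_getElem (by simp) fun i h1 h2 => ?_
  simp only [List.getElem_map, List.getElem_range]
  rw [h i (by simpa using h2)]

/-- the semigroup is free -/
theorem free (hA : Act G Γ) (hf : IsFlat Γ f) (hC : Conn G f W B p l a θ)
    (hL : Loops G f W B p l (fun b b' => a b * θ b * (a b')⁻¹)) (hW : 2 ≤ W) (hB : 1 ≤ B) :
    Injective fun ω : List Bool => (ω.map θ).prod := by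
  have hl := hL.pos
  -- the strip of a list
  set E : List Bool → ℕ → Bool := fun ω i => ω.getD i false with hE
  have hEi : ∀ ω : List Bool, ∀ i, (hi : i < ω.length) → E ω i = ω[i] := by
    intro ω i hi
    simp [hE, List.getD_eq_getElem?_getD, hi]
  have hEs : ∀ ω : List Bool, sh (E ω) ω.length = fun _ => false := by
    intro ω
    funext i
    simp [hE, sh, List.getD_eq_getElem?_getD]
  have hsh : ∀ (ω : List Bool) (x : ℕ) (y : ℤ),
      HS p l a θ f (E ω) ((T l (E ω) ω.length : ℤ) + x, y) =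
        (ω.map θ).prod • HS p l a θ f (fun _ => false) ((x : ℤ), y) := by
    intro ω x y
    rw [HS_shift p l a θ f hl, hEs, pr_list ω (hEi ω)]
  have h00 : ∀ ε : ℕ → Bool, HS p l a θ f ε (((0 : ℕ) : ℤ), ((0 : ℕ) : ℤ)) =
      f ((((0 : ℕ) : ℤ), ((0 : ℕ) : ℤ)) + p false) :=
    fun ε => HS_first hC hL ε 0 (by omega) ((0 : ℕ) : ℤ) (by omega) (by omega)
  have hlen : ∀ ω : List Bool,
      (Γ.dist (f ((((0 : ℕ) : ℤ), ((0 : ℕ) : ℤ)) + p false))
        ((ω.map θ).prod • f ((((0 : ℕ) : ℤ), ((0 : ℕ) : ℤ)) + p false)) : ℤ)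
        = T l (E ω) ω.length := by
    intro ω
    have h1 := HS_iso hA hf hL hW (E ω) 0 (T l (E ω) ω.length) ((0 : ℕ) : ℤ) ((0 : ℕ) : ℤ)
      (by omega) (by omega) (by omega) (by omega)
    have h2 := hsh ω 0 ((0 : ℕ) : ℤ)
    rw [show (T l (E ω) ω.length : ℤ) + ((0 : ℕ) : ℤ) = T l (E ω) ω.length by simp, h00] at h2
    rw [h00, h2] at h1
    rw [h1]
    simp
  have hpos : ∀ (b : Bool) (ω : List Bool), 0 < T l (E (b :: ω)) (b :: ω).length := by
    intro b ω
    rw [T_list _ (hEi _)]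
    simp only [List.map_cons, List.sum_cons]
    have := hl b
    omega
  intro ω
  induction ω with
  | nil =>
    intro ω' h
    cases ω' with
    | nil => rfl
    | cons b ω' =>
      exfalso
      have h1 := hlen (b :: ω')
      have h2 : ((b :: ω').map θ).prod = 1 := by simpa using h.symm
      rw [h2, one_smul, SimpleGraph.dist_self] at h1
      have := hpos b ω'
      omega
  | cons b ω ih =>
    intro ω' h
    cases ω' with
    | nil =>
      exfalso
      have h1 := hlen (b :: ω)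
      have h2 : ((b :: ω).map θ).prod = 1 := by simpa using h
      rw [h2, one_smul, SimpleGraph.dist_self] at h1
      have := hpos b ω
      omega
    | cons b' ω' =>
      have h' : ((b :: ω).map θ).prod = ((b' :: ω').map θ).prod := h
      have hT : T l (E (b :: ω)) (b :: ω).length = T l (E (b' :: ω')) (b' :: ω').length := by
        have h1 := hlen (b :: ω)
        have h2 := hlen (b' :: ω')
        rw [h'] at h1
        rw [h1] at h2
        exact_mod_cast h2
      set n := T l (E (b :: ω)) (b :: ω).length with hn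
      have hfar : ∀ (x : ℕ) (y : ℤ), HS p l a θ f (E (b :: ω)) ((n : ℤ) + x, y) =
          HS p l a θ f (E (b' :: ω')) ((n : ℤ) + x, y) := by
        intro x y
        have h1 := hsh (b :: ω) x y
        have h2 := hsh (b' :: ω') x y
        rw [← hT] at h2
        rw [h1, h2, h']
      have hbb : E (b :: ω) 0 = E (b' :: ω') 0 := by
        refine first_eq hL fun y x hy hx => ?_
        refine Iso.sides hA.med hA.n3 (n := n + (l false + l true + W))
          (HS_Iso hA hf hL hW _ _) (HS_Iso hA hf hL hW _ _) hB ?_ ?_ y x hy (by omega)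
        · intro y' hy'
          have h1 := HS_first hC hL (E (b :: ω)) 0 (by omega) y' (by omega) (by omega)
          have h2 := HS_first hC hL (E (b' :: ω')) 0 (by omega) y' (by omega) (by omega)
          rw [Nat.cast_zero] at h1 h2
          rw [h1, h2]
        · have h1 := hfar (l false + l true + W) ((0 : ℕ) : ℤ)
          rw [Nat.cast_add n]
          exact h1
      have hb : b = b' := by
        have h1 := hEi (b :: ω) 0 (by simp)
        have h2 := hEi (b' :: ω') 0 (by simp)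
        rw [h1, h2] at hbb
        simpa using hbb
      subst hb
      simp only [List.map_cons, List.prod_cons] at h
      rw [ih (mul_left_cancel h)]

end main

end Pool.Agent.V5helper35.WF
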